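import Pool.Agent.Helper77.Fusion.Sem

/-!
The certificate checker.
-/

namespace Pool.Agent.Helper77.Fusion

/-- Certificate trees; every natural number codes a vertex or (base 64) a list of vertices. -/
inductive Cert
  | done
  | br (c k : Cert)
  | un (a b : Nat) (k : Cert)
  | dz (a b c S : Nat) (k : Cert)
  | up (a b c d x S L : Nat) (k : Cert)
  | eq (a b c d x S L : Nat) (k : Cert)
  | ld (a b S : Nat)
  | lc (a b c d S L : Nat)
  | lq (a b c d S L : Nat)
  | bn (a b c S : Nat) (k : Cert)
  | nw (a b typ L : Nat) (k : Cert)

/-- forces the evaluation of the number `x` before `k` is applied -/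
def force {α : Type} (x : Nat) (k : Nat → α) : α :=
  match x with
  | 0 => k 0
  | Nat.succ n => k (Nat.succ n)

lemma force_eq {α : Type} (x : Nat) (k : Nat → α) : force x k = k x := by
  cases x <;> rfl

/-- decodes a list -/
def dl : Nat → Nat → List Nat
  | 0, _ => []
  | f + 1, w => bif Nat.beq w 0 then [] else (w % 64 - 1) :: dl f (w / 64)

/-- State of the checker: number of vertices, packed vertex data, packed table of the known
numbers `T`, focus. -/
structure St where
  n : Nat
  A : Nat
  T : Nat
  fa : Nat
  fb : Nat
  fc : Nat

def ent (A i : Nat) : Nat := (A >>> (20 * i)) % 1048576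
def grd (A i : Nat) : Nat := ent A i % 64
def dus (A i : Nat) : Nat := ent A i / 64 % 64
def dgr (A i : Nat) : Nat := ent A i / 4096

def idx3 (x y z : Nat) : Nat := z * z * z + (y * y + x)

def idx (a b c : Nat) : Nat :=
  bif Nat.ble a b then
    (bif Nat.ble b c then idx3 a b c else bif Nat.ble a c then idx3 a c b else idx3 c a b)
  else
    (bif Nat.ble a c then idx3 b a c else bif Nat.ble b c then idx3 b c a else idx3 c b a)

def ld4 (T i : Nat) : Nat := (T >>> (4 * i)) % 16

def look (T a b c : Nat) : Nat := ld4 T (idx a b c)

def setE (T i t : Nat) : Nat :=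
  bif Nat.beq (ld4 T i) 0 then T ||| ((t + 1) <<< (4 * i)) else T

def withT (s : St) (a b c t : Nat) (f : St → Bool) : Bool :=
  match s with
  | ⟨n, A, T, fa, fb, fc⟩ =>
    match look T a b c with
    | 0 => bif Nat.blt t 15 then
        force (setE (setE T (idx a b c) t) (idx (dus A a) (dus A b) (dus A c)) t)
          (fun T' => f ⟨n, A, T', fa, fb, fc⟩)
        else false
    | m + 1 => bif Nat.beq m t then f ⟨n, A, T, fa, fb, fc⟩ else true

/-- degree sum over a list of constituents -/
def sdl (n A T a b : Nat) : List Nat → Nat → Option Nat
  | [], _ => some 0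
  | x :: l, lo =>
    bif Nat.ble lo x && Nat.blt x n then
      match look T a b (dus A x) with
      | 0 => none
      | t + 1 => match sdl n A T a b l (x + 1) with
        | none => none
        | some p => some (t * dgr A x + p)
    else none

/-- degree sum and four-point sum over a list of constituents -/
def sm (n A T a b c d : Nat) : List Nat → Nat → Option (Nat × Nat)
  | [], _ => some (0, 0)
  | x :: l, lo =>
    bif Nat.ble lo x && Nat.blt x n then
      match look T a b (dus A x) with
      | 0 => none
      | t + 1 => match look T x c d with
        | 0 => none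
        | u + 1 => match sm n A T a b c d l (x + 1) with
          | none => none
          | some (p, q) => some (t * dgr A x + p, t * u + q)
    else none

def nin (x : Nat) : List Nat → Bool
  | [] => true
  | y :: l => bif Nat.beq x y then false else nin x l

/-- the sum over all known vertices of a grade -/
def scan (A T a b g : Nat) : Nat → Option (Nat × Nat)
  | 0 => some (0, 0)
  | i + 1 => match scan A T a b g i with
    | none => none
    | some (p, q) =>
      bif Nat.beq (grd A i) g then
        match look T a b (dus A i) with
        | 0 => none
        | t + 1 => some (t * dgr A i + p, t * t + q)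
      else some (p, q)

def has1 (A g : Nat) : Nat → Bool
  | 0 => false
  | i + 1 => bif Nat.beq (grd A i) g && Nat.beq (dgr A i) 1 then true else has1 A g i

/-- data for the enumeration of the new constituents -/
structure NP where
  R : Nat       -- remaining degree
  q : Nat       -- 0: no norm known, `Q + 1`: remaining norm `Q`
  da : Nat
  db : Nat
  cap : Nat
  no1 : Bool    -- degree one excluded
  z : Bool      -- grade zero

def feas (N : NP) (e m : Nat) : Bool :=
  Nat.ble (m * N.da) (e * N.db) && Nat.ble (m * N.db) (e * N.da) &&
  Nat.ble (e * 64 + m) N.cap &&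
  (match N.q with | 0 => true | Q + 1 => Nat.ble (m * m) Q && Nat.ble N.R (e * Q)) &&
  !(Nat.beq e 2) && !(Nat.beq e 1 && N.no1)

def feas2 (N : NP) (e m j : Nat) : Bool :=
  Nat.ble ((m + j) * e) N.R &&
  (match N.q with | 0 => true | Q + 1 => Nat.ble (m * m + j * j) Q)

def optC (N : NP) (e m : Nat) (rest : List (Nat × Nat × Nat)) : Nat → List (Nat × Nat × Nat)
  | 0 => rest
  | j + 1 => bif feas2 N e m j then (e, m, j + 2) :: optC N e m rest j else optC N e m rest j

def optM (N : NP) (e : Nat) (rest : List (Nat × Nat × Nat)) : Nat → List (Nat × Nat × Nat)
  | 0 => rest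
  | m + 1 =>
    bif feas N e (m + 1) then
      (bif N.z then (e, m + 1, 1) :: optC N e (m + 1) (optM N e rest m) (m + 2)
      else (e, m + 1, 0) :: optM N e rest m)
    else optM N e rest m

def optE (N : NP) : Nat → List (Nat × Nat × Nat)
  | 0 => []
  | e + 1 => optM N (e + 1) (optE N e) (N.R / (e + 1))

/-- the child state of an option -/
def child (s : St) (a b g : Nat) (o : Nat × Nat × Nat) (f : St → Bool) : Bool :=
  match s with
  | ⟨n, A, T, _, _, _⟩ =>
    match o with
    | (e, m, kind) =>
      bif Nat.beq (ent A n) 0 && Nat.beq (ent A (n + 1)) 0 && Nat.beq (T >>> (4 * (n * n * n))) 0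
        && Nat.blt n 60 && Nat.blt e 256 then
        match kind with
        | 0 => force (A ||| ((g + (64 * (n + 1) + 4096 * e)) <<< (20 * n)) |||
              (((32 - g) + (64 * n + 4096 * e)) <<< (20 * (n + 1)))) (fun A' =>
            withT ⟨n + 2, A', T, a, b, e * 64 + m⟩ a b (n + 1) m f)
        | 1 => force (A ||| ((g + (64 * n + 4096 * e)) <<< (20 * n))) (fun A' =>
            withT ⟨n + 1, A', T, a, b, e * 64 + m⟩ a b n m f)
        | j + 2 => force (A ||| ((g + (64 * (n + 1) + 4096 * e)) <<< (20 * n)) |||
              ((g + (64 * n + 4096 * e)) <<< (20 * (n + 1)))) (fun A' =>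
            withT ⟨n + 2, A', T, a, b, e * 64 + m⟩ a b (n + 1) m
              (fun s' => withT s' a b n j f))
      else false

inductive Mode
  | plain
  | bch (a b c t hi : Nat)
  | nch (a b g : Nat) (os : List (Nat × Nat × Nat))

/-- the norm of the product `a b`: `some 0`: not given, `some (V+1)`: `V`, `none`: failure -/
def normV (n A T a b typ L : Nat) : Option Nat :=
  match typ with
  | 0 => some 0
  | 1 => match sm n A T a (dus A a) b (dus A b) (dl 20 L) 0 with
    | none => none
    | some (p, V) => bif Nat.beq p (dgr A a * dgr A a) then some (V + 1) else none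
  | 2 => match sm n A T a (dus A b) b (dus A a) (dl 20 L) 0 with
    | none => none
    | some (p, V) => bif Nat.beq p (dgr A a * dgr A b) then some (V + 1) else none
  | _ => match sm n A T b (dus A b) a (dus A a) (dl 20 L) 0 with
    | none => none
    | some (p, V) => bif Nat.beq p (dgr A b * dgr A b) then some (V + 1) else none

def isVC (a b : Nat) : Bool := (Nat.beq a 1 && Nat.beq b 4) || (Nat.beq a 4 && Nat.beq b 1)

/-- the options at a new vertex; `none`: failure -/
def opts (n A T fa fb fc a b typ L g : Nat) : Option (List (Nat × Nat × Nat)) :=
  match scan A T a b g n with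
  | none => none
  | some (p, q) =>
    match normV n A T a b (typ % 4) L with
    | none => none
    | some V1 =>
      bif Nat.blt p (dgr A a * dgr A b) && Nat.blt (dgr A a * dgr A b - p) 192 then
        match (bif Nat.ble 4 typ then
            (bif Nat.beq fa a && Nat.beq fb b then some fc else none) else some 1000000) with
        | none => none
        | some cap =>
          match V1 with
          | 0 => force (dgr A a * dgr A b - p) (fun R =>
              some (optE ⟨R, 0, dgr A a, dgr A b, cap, has1 A g n || isVC a b, Nat.beq g 16⟩ R))
          | V + 1 => bif Nat.blt V q then some [] else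
              force (dgr A a * dgr A b - p) (fun R => force (V + 1 - q) (fun q' =>
                some (optE ⟨R, q', dgr A a, dgr A b, cap, has1 A g n || isVC a b,
                  Nat.beq g 16⟩ R)))
      else none

def check : Cert → Mode → St → Bool
  | .done, m, _ => match m with
    | .plain => false
    | .bch _ _ _ t hi => Nat.blt hi t
    | .nch _ _ _ os => match os with
      | [] => true
      | _ :: _ => false
  | .br c k, m, s => match m with
    | .plain => false
    | .bch a b c' t hi => withT s a b c' t (check c .plain) && check k (.bch a b c' (t + 1) hi) s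
    | .nch a b g os => match os with
      | [] => false
      | o :: os => child s a b g o (check c .plain) && check k (.nch a b g os) s
  | .un a b k, m, s => match m, s with
    | .plain, ⟨n, A, T, fa, fb, fc⟩ =>
      Nat.blt a n && Nat.blt b n &&
        withT ⟨n, A, T, fa, fb, fc⟩ 0 a b (bif Nat.beq (dus A a) b then 1 else 0) (check k .plain)
    | _, _ => false
  | .dz a b c S k, m, s => match m, s with
    | .plain, ⟨n, A, T, fa, fb, fc⟩ =>
      Nat.blt a n && Nat.blt b n && Nat.blt c n && nin (dus A c) (dl 20 S) &&
        match sdl n A T a b (dl 20 S) 0 with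
        | none => false
        | some p => Nat.blt (dgr A a * dgr A b) (p + dgr A c) &&
            withT ⟨n, A, T, fa, fb, fc⟩ a b c 0 (check k .plain)
    | _, _ => false
  | .bn a b c S k, m, s => match m, s with
    | .plain, ⟨n, A, T, fa, fb, fc⟩ =>
      Nat.blt a n && Nat.blt b n && Nat.blt c n && nin (dus A c) (dl 20 S) &&
        match sdl n A T a b (dl 20 S) 0 with
        | none => false
        | some p => force ((dgr A a * dgr A b - p) / dgr A c) (fun hi =>
            check k (.bch a b c 0 hi) ⟨n, A, T, fa, fb, fc⟩)
    | _, _ => false
  | .ld a b S, m, s => match m, s with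
    | .plain, ⟨n, A, T, _, _, _⟩ =>
      Nat.blt a n && Nat.blt b n &&
        match sdl n A T a b (dl 20 S) 0 with
        | none => false
        | some p => Nat.blt (dgr A a * dgr A b) p
    | _, _ => false
  | .up a b c d x S L k, m, s => match m, s with
    | .plain, ⟨n, A, T, fa, fb, fc⟩ =>
      Nat.blt a n && Nat.blt b n && Nat.blt c n && Nat.blt d n && Nat.blt x n &&
        nin x (dl 20 S) &&
        match sm n A T a b c d (dl 20 S) 0 with
        | none => false
        | some (_, K) => match sm n A T a c b d (dl 20 L) 0 with
          | none => false
          | some (p, V) => match look T a b (dus A x) with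
            | 0 => false
            | co + 1 => Nat.beq p (dgr A a * dgr A c) && Nat.blt V (K + co) &&
              withT ⟨n, A, T, fa, fb, fc⟩ x c d 0 (check k .plain)
    | _, _ => false
  | .eq a b c d x S L k, m, s => match m, s with
    | .plain, ⟨n, A, T, fa, fb, fc⟩ =>
      Nat.blt a n && Nat.blt b n && Nat.blt c n && Nat.blt d n && Nat.blt x n &&
        nin x (dl 20 S) &&
        match sm n A T a b c d (dl 20 S) 0 with
        | none => false
        | some (pS, K) => match sm n A T a c b d (dl 20 L) 0 with
          | none => false
          | some (p, V) => match look T a b (dus A x) with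
            | 0 => false
            | co + 1 => Nat.beq p (dgr A a * dgr A c) &&
              Nat.beq (pS + co * dgr A x) (dgr A a * dgr A b) &&
              (bif Nat.blt V K then true else
                force ((V - K) / co) (fun t =>
                  bif Nat.beq (co * t) (V - K) then
                    Nat.blt 0 co && withT ⟨n, A, T, fa, fb, fc⟩ x c d t (check k .plain)
                  else true))
    | _, _ => false
  | .lc a b c d S L, m, s => match m, s with
    | .plain, ⟨n, A, T, _, _, _⟩ =>
      Nat.blt a n && Nat.blt b n && Nat.blt c n && Nat.blt d n &&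
        match sm n A T a b c d (dl 20 S) 0 with
        | none => false
        | some (_, K) => match sm n A T a c b d (dl 20 L) 0 with
          | none => false
          | some (p, V) => Nat.beq p (dgr A a * dgr A c) && Nat.blt V K
    | _, _ => false
  | .lq a b c d S L, m, s => match m, s with
    | .plain, ⟨n, A, T, _, _, _⟩ =>
      Nat.blt a n && Nat.blt b n && Nat.blt c n && Nat.blt d n &&
        match sm n A T a b c d (dl 20 S) 0 with
        | none => false
        | some (pS, K) => match sm n A T a c b d (dl 20 L) 0 with
          | none => false
          | some (p, V) => Nat.beq p (dgr A a * dgr A c) && Nat.beq pS (dgr A a * dgr A b) &&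
              !(Nat.beq K V)
    | _, _ => false
  | .nw a b typ L k, m, s => match m, s with
    | .plain, ⟨n, A, T, fa, fb, fc⟩ =>
      Nat.blt a n && Nat.blt b n && Nat.ble 16 (grd A a + grd A b) &&
      Nat.ble (grd A a + grd A b) 48 &&
        force (grd A a + grd A b - 16) (fun g =>
          match opts n A T fa fb fc a b typ L g with
          | none => false
          | some os => check k (.nch a b g os) ⟨n, A, T, fa, fb, fc⟩)
    | _, _ => false

end Pool.Agent.Helper77.Fusion
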