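import Mathlib

/-!
C-NITAs (commutative normalized integral table algebras of countable dimension).
-/

namespace Pool.Agent.Helper77.Fusion

open Module

/-- `(A, B)` is a C-NITA: `A` is a commutative complex algebra, `B` a basis of `A` indexed by the
countable set `ι`, with `B o = 1`, `bar` is the automorphism of (TA2), `deg` the degree
homomorphism of (TA4). -/
structure IsCNITA {A ι : Type*} [CommRing A] [Algebra ℂ A] (B : Basis ι ℂ A) (o : ι)
    (bar : A ≃ₐ[ℂ] A) (deg : A →ₐ[ℂ] ℂ) : Prop where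
  /-- countable dimension -/
  countable : Countable ι
  /-- the basis contains `1` -/
  one : B o = 1
  /-- (TA1) and integrality: the structure constants are non-negative integers -/
  coef : ∀ i j m, ∃ n : ℕ, B.repr (B i * B j) m = n
  /-- (TA2): `bar` has order dividing two -/
  bar_bar : ∀ a, bar (bar a) = a
  /-- (TA2): `bar` permutes the basis -/
  bar_basis : ∀ i, ∃ j, bar (B i) = B j
  /-- (TA3): `b_{ijm} = g(b_i, b_m) b_{\bar j m i}` with `g` positive -/
  ta3 : ∃ g : ι → ι → ℝ, (∀ i m, 0 < g i m) ∧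
    ∀ i j m, B.repr (B i * B j) m = g i m * B.repr (bar (B j) * B m) i
  /-- (TA4) and integrality: the degrees are positive integers -/
  deg_pos : ∀ i, ∃ n : ℕ, 0 < n ∧ deg (B i) = n
  /-- (TA4): the degree is invariant under `bar` -/
  deg_bar : ∀ i, deg (bar (B i)) = deg (B i)
  /-- (TA4): the degree is the only such homomorphism -/
  deg_unique : ∀ φ : A →ₐ[ℂ] ℂ,
    (∀ i, φ (bar (B i)) = φ (B i) ∧ ∃ r : ℝ, 0 < r ∧ φ (B i) = r) → φ = deg
  /-- normalisation: `b_{i \bar i 1} = 1` -/
  norm : ∀ i, B.repr (B i * bar (B i)) o = 1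

/-- the number `(x, x)`: the sum of the squares of the absolute values of the coordinates -/
noncomputable def normSq {A ι : Type*} [CommRing A] [Algebra ℂ A] (B : Basis ι ℂ A) (x : A) : ℝ :=
  (B.repr x).sum fun _ z => ‖z‖ ^ 2

/-- The setting of the problem: `(A, B)` is a C-NITA generated by the non-real element `B v` of
degree 3, the only basis element of degree 1 is `1`, there is no basis element of degree 2, and
`b_3 \bar b_3 = 1 + b_8` for `b_3 = B v`, `b_8 = B e`. -/
structure Setting {A ι : Type*} [CommRing A] [Algebra ℂ A] (B : Basis ι ℂ A) (o : ι)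
    (bar : A ≃ₐ[ℂ] A) (deg : A →ₐ[ℂ] ℂ) (v e : ι) : Prop where
  cnita : IsCNITA B o bar deg
  /-- every basis element occurs with positive coefficient in some monomial in `b_3`, `\bar b_3` -/
  gen : ∀ i, ∃ m n : ℕ, ∃ r : ℝ, 0 < r ∧ B.repr (B v ^ m * bar (B v) ^ n) i = r
  nonreal : bar (B v) ≠ B v
  deg_v : deg (B v) = 3
  deg_one : ∀ i, deg (B i) = 1 → B i = 1
  deg_two : ∀ i, deg (B i) ≠ 2
  prod : B v * bar (B v) = 1 + B e

/-- The C-NITAs of Q1: those of the setting that have `c_3 = B c` and `b_6 = B s` in the basis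
with `|c_3| = 3`, `|b_6| = 6`, `c_3 ≠ b_3, \bar b_3`, `b_3 ^ 2 = c_3 + b_6` and
`(b_3 b_8, b_3 b_8) = 4`. -/
structure Q1 {A ι : Type*} [CommRing A] [Algebra ℂ A] (B : Basis ι ℂ A) (o : ι)
    (bar : A ≃ₐ[ℂ] A) (deg : A →ₐ[ℂ] ℂ) (v e c s : ι) : Prop where
  setting : Setting B o bar deg v e
  deg_c : deg (B c) = 3
  deg_s : deg (B s) = 6
  ne : B c ≠ B v
  ne_bar : B c ≠ bar (B v)
  sq : B v ^ 2 = B c + B s
  norm : normSq B (B v * B e) = 4

end Pool.Agent.Helper77.Fusion
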