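import Pool.Agent.Helper77.Fusion.Sound5
import Pool.Agent.Helper77.Fusion.CertData

/-!
There is no graded fusion ring with the local data of the problem.
-/

namespace Pool.Agent.Helper77.Fusion

open Finset

theorem cert_ok : check root .plain s0 = true := by decide +kernel

variable {J : Type*} (F : FRS J)

/-- the first eight vertices -/
def v0 (V b8 C S : J) : ℕ → J
  | 0 => F.one
  | 1 => V
  | 2 => F.st V
  | 3 => b8
  | 4 => C
  | 5 => F.st C
  | 6 => S
  | 7 => F.st S
  | _ => F.one

theorem no_frs (V b8 C S : J) (h1 : F.st F.one = F.one) (d1 : F.deg F.one = 1)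
    (g1 : F.gr F.one = 0) (gV : F.gr V = 1) (g8 : F.gr b8 = 0) (gC : F.gr C = 2)
    (gS : F.gr S = 2) (dV : F.deg V = 3) (d8 : F.deg b8 = 8) (dC : F.deg C = 3)
    (dS : F.deg S = 6) (s8 : F.st b8 = b8) (e1 : F.T V (F.st V) b8 = 1)
    (e2 : F.T V V (F.st C) = 1) (e3 : F.T V V (F.st S) = 1) (e4 : F.T b8 b8 b8 = 3)
    (hvc : ∀ x, F.deg x = 1 → F.T V C x = 0) : False := by
  have hA : ∀ i < 8, grd A0 i = [16, 17, 15, 16, 18, 14, 18, 14].getD i 0 ∧
      dgr A0 i = [1, 3, 3, 8, 3, 3, 6, 6].getD i 0 ∧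
      dus A0 i = [0, 2, 1, 3, 5, 4, 7, 6].getD i 0 := by decide
  have H : Ok F ⟨8, A0, 0, 0, 0, 0⟩ (v0 F V b8 C S) := by
    refine ⟨?_, ?_, ?_, ?_, ?_, ?_, rfl, hvc, ?_⟩
    · intro i hi
      simp only at hi ⊢
      rw [(hA i hi).1]
      interval_cases i <;> simp [v0, F.gr_st, g1, gV, g8, gC, gS]
    · intro i hi
      simp only at hi ⊢
      rw [(hA i hi).2.1]
      interval_cases i <;> simp [v0, F.deg_st, d1, dV, d8, dC, dS]
    · intro i hi
      simp only at hi ⊢
      rw [(hA i hi).2.2]
      interval_cases i <;> simp [v0, F.st_st, h1, s8]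
    · intro i hi j hj hij
      simp only at hi hj
      have hg : F.gr (v0 F V b8 C S i) = F.gr (v0 F V b8 C S j) := by rw [hij]
      have hd : F.deg (v0 F V b8 C S i) = F.deg (v0 F V b8 C S j) := by rw [hij]
      interval_cases i <;> interval_cases j <;>
        simp [v0, F.gr_st, F.deg_st, g1, gV, g8, gC, gS, d1, dV, d8, dC, dS] at hg hd ⊢
    · intro x y z _ _ _ t ht
      simp [ld4] at ht
    · norm_num
    · intro x hx
      left
      refine ⟨0, by norm_num, ?_⟩
      simp only [v0] at hx ⊢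
      rcases F.one_T F.one (F.st x) with h | h
      · have := h.2
        rw [h1] at this
        rw [← F.st_st x, this, h1]
      · exact absurd h.1 hx
  have H1 := H.setE (a := 1) (b := 2) (c := 3) (t := 1) (by norm_num) (by norm_num)
    (by norm_num) (by norm_num) e1
  have H2 := H1.setE (a := 1) (b := 1) (c := 5) (t := 1) (by norm_num) (by norm_num)
    (by norm_num) (by norm_num) e2
  have H3 := H2.setE (a := 2) (b := 2) (c := 4) (t := 1) (by norm_num) (by norm_num)
    (by norm_num) (by norm_num) (by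
      simp only [v0]
      rw [← F.dual, F.st_st]
      exact e2)
  have H4 := H3.setE (a := 1) (b := 1) (c := 7) (t := 1) (by norm_num) (by norm_num)
    (by norm_num) (by norm_num) e3
  have H5 := H4.setE (a := 2) (b := 2) (c := 6) (t := 1) (by norm_num) (by norm_num)
    (by norm_num) (by norm_num) (by
      simp only [v0]
      rw [← F.dual, F.st_st]
      exact e3)
  have H6 := H5.setE (a := 3) (b := 3) (c := 3) (t := 3) (by norm_num) (by norm_num)
    (by norm_num) (by norm_num) e4
  have hT : setE (setE (setE (setE (setE (setE 0 (idx 1 2 3) 1) (idx 1 1 5) 1) (idx 2 2 4) 1)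
      (idx 1 1 7) 1) (idx 2 2 6) 1) (idx 3 3 3) 3 = T0 := by decide +kernel
  simp only at H6
  rw [hT] at H6
  exact (check_sound F root).plain s0 _ H6 cert_ok

end Pool.Agent.Helper77.Fusion
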