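import Pool.Agent.Helper77.Fusion.Reduce
import Pool.Agent.Helper77.Fusion.NoFRS

/-!
The C-NITAs of Q1 do not exist.
-/

namespace Pool.Agent.Helper77.Fusion

open Module Finset

variable {A ι : Type*} [CommRing A] [Algebra ℂ A] {B : Basis ι ℂ A} {o : ι}
  {bar : A ≃ₐ[ℂ] A} {deg : A →ₐ[ℂ] ℂ}

namespace IsCNITA

variable (h : IsCNITA B o bar deg)

lemma repr_B [DecidableEq ι] (i j : ι) : B.repr (B i) j = if i = j then 1 else 0 := by
  rw [Basis.repr_self, Finsupp.single_apply]

/-- the structure constants from an expansion as a sum of two basis elements -/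
lemma T_of_prod [DecidableEq ι] {a b x y : ι} (hp : B a * B b = B x + B y) (z : ι) :
    (h.T a b (h.st z) : ℂ) = (if x = z then 1 else 0) + if y = z then 1 else 0 := by
  rw [h.T_st, hp, map_add, Finsupp.add_apply, repr_B, repr_B]

end IsCNITA

theorem no_q1 {v e c s : ι} (hq : Q1 B o bar deg v e c s) : False := by
  classical
  obtain ⟨⟨h, _, _, hv3, h1, h2, hprod⟩, hc3, hs6, _, hcv, hsq, hnorm⟩ := hq
  -- degrees
  have dv : h.d v = 3 := by
    have : (h.d v : ℂ) = 3 := by rw [← h.d_spec, hv3]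
    exact_mod_cast this
  have dc : h.d c = 3 := by
    have : (h.d c : ℂ) = 3 := by rw [← h.d_spec, hc3]
    exact_mod_cast this
  have ds : h.d s = 6 := by
    have : (h.d s : ℂ) = 6 := by rw [← h.d_spec, hs6]
    exact_mod_cast this
  have do1 : h.d o = 1 := by
    have : (h.d o : ℂ) = 1 := by rw [← h.d_spec, h.one, map_one]
    exact_mod_cast this
  have de : h.d e = 8 := by
    have h3 : deg (B v * bar (B v)) = deg (1 + B e) := by rw [hprod]
    rw [map_mul, map_add, map_one, h.deg_bar, hv3, h.d_spec] at h3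
    have h4 : (h.d e : ℂ) + 1 = 8 + 1 := by
      rw [add_comm, ← h3]
      norm_num
    have h5 : (h.d e : ℂ) = 8 := by linear_combination h4
    exact_mod_cast h5
  have ste : h.st e = e := by
    apply B.injective
    rw [← h.bar_B]
    have h3 : bar (B v * bar (B v)) = bar (1 + B e) := by rw [hprod]
    rw [map_mul, h.bar_bar, mul_comm, hprod, map_add, map_one] at h3
    exact (add_left_cancel h3).symm
  have hprod' : B v * B (h.st v) = B o + B e := by rw [← h.bar_B, hprod, h.one]
  have hoe : o ≠ e := by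
    rintro rfl
    omega
  have hcs : c ≠ s := by
    rintro rfl
    omega
  -- the fusion ring
  set F := h.frs h1 h2 with hF
  have e1 : h.T v (h.st v) e = 1 := by
    have h3 := h.T_of_prod hprod' e
    rw [ste, if_neg hoe, if_pos rfl, zero_add] at h3
    exact_mod_cast h3
  have hsq' : B v * B v = B c + B s := by rw [← sq, hsq]
  have e2 : h.T v v (h.st c) = 1 := by
    have h3 := h.T_of_prod hsq' c
    rw [if_pos rfl, if_neg (Ne.symm hcs), add_zero] at h3
    exact_mod_cast h3
  have e3 : h.T v v (h.st s) = 1 := by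
    have h3 := h.T_of_prod hsq' s
    rw [if_pos rfl, if_neg hcs, zero_add] at h3
    exact_mod_cast h3
  -- the norm of `b_3 b_8`
  have e4 : h.T e e e = 3 := by
    have hn : ∑ x ∈ h.cons v e, h.T v e (h.st x) ^ 2 = 4 := by
      have h3 : ((∑ x ∈ h.cons v e, h.T v e (h.st x) ^ 2 : ℕ) : ℝ) = 4 := by
        rw [← hnorm, normSq, Finsupp.sum]
        push_cast
        apply Finset.sum_congr rfl
        intro x _
        rw [← h.T_st, Complex.norm_natCast]
      exact_mod_cast h3
    have h5 := F.Q_norm (v, (1 : ℤ)) (e, (0 : ℤ))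
    have h6 : ∑ x ∈ F.cons (v, (1 : ℤ)) (e, (0 : ℤ)),
        F.T (v, (1 : ℤ)) (e, (0 : ℤ)) (F.st x) ^ 2 = 4 := by
      rw [← hn]
      rw [show F.cons (v, (1 : ℤ)) (e, (0 : ℤ)) = (h.cons v e).map (IsCNITA.gemb 1) from rfl,
        Finset.sum_map]
      exact Finset.sum_congr rfl fun x _ => rfl
    rw [h6, F.Q_swap] at h5
    have h7 := F.Q_eq (v, (1 : ℤ)) (F.st (v, (1 : ℤ))) (e, (0 : ℤ)) (F.st (e, (0 : ℤ)))
      [(o, (0 : ℤ)), (e, (0 : ℤ))] (by
        rw [List.nodup_cons]
        refine ⟨?_, List.nodup_singleton _⟩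
        rw [List.mem_singleton, Prod.mk.injEq]
        exact fun h8 => hoe h8.1) (by
        simp only [List.map_cons, List.map_nil, List.sum_cons, List.sum_nil]
        rw [show F.T (v, (1 : ℤ)) (F.st (v, (1 : ℤ))) (F.st (o, (0 : ℤ))) =
          h.T v (h.st v) (h.st o) from rfl,
          show F.T (v, (1 : ℤ)) (F.st (v, (1 : ℤ))) (F.st (e, (0 : ℤ))) =
          h.T v (h.st v) (h.st e) from rfl,
          show F.deg (o, (0 : ℤ)) = h.d o from rfl, show F.deg (e, (0 : ℤ)) = h.d e from rfl,
          show F.deg (v, (1 : ℤ)) = h.d v from rfl,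
          show F.deg (F.st (v, (1 : ℤ))) = h.d (h.st v) from rfl, h.d_st, ste, e1, do1, de, dv]
        have h8 : h.T v (h.st v) (h.st o) = 1 := by
          have h9 := h.T_of_prod hprod' o
          rw [if_pos rfl, if_neg (Ne.symm hoe), add_zero] at h9
          exact_mod_cast h9
        rw [h8]
        norm_num)
    rw [h5] at h7
    simp only [List.map_cons, List.map_nil, List.sum_cons, List.sum_nil] at h7
    rw [show F.T (v, (1 : ℤ)) (F.st (v, (1 : ℤ))) (F.st (o, (0 : ℤ))) =
      h.T v (h.st v) (h.st o) from rfl,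
      show F.T (v, (1 : ℤ)) (F.st (v, (1 : ℤ))) (F.st (e, (0 : ℤ))) =
      h.T v (h.st v) (h.st e) from rfl,
      show F.T (o, (0 : ℤ)) (e, (0 : ℤ)) (F.st (e, (0 : ℤ))) = h.T o e (h.st e) from rfl,
      show F.T (e, (0 : ℤ)) (e, (0 : ℤ)) (F.st (e, (0 : ℤ))) = h.T e e (h.st e) from rfl,
      ste, e1] at h7
    have h8 : h.T v (h.st v) (h.st o) = 1 := by
      have h9 := h.T_of_prod hprod' o
      rw [if_pos rfl, if_neg (Ne.symm hoe), add_zero] at h9
      exact_mod_cast h9
    have h9 : h.T o e e = 1 := by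
      rcases h.T_one e e with h10 | h10
      · exact h10.1
      · exact absurd ste.symm h10.2
    rw [h8, h9] at h7
    omega
  refine no_frs F (v, 1) (e, 0) (c, 2) (s, 2) ?_ do1 rfl rfl rfl rfl rfl dv de dc ds ?_ e1 e2 e3 e4
    ?_
  · show (h.st o, -(0 : ℤ)) = (o, 0)
    rw [h.st_o, neg_zero]
  · show (h.st e, -(0 : ℤ)) = (e, 0)
    rw [ste, neg_zero]
  · rintro ⟨i, p⟩ hi
    have hi' : h.d i = 1 := hi
    have hio : i = o := by
      apply B.injective
      rw [h1 i (by rw [h.d_spec, hi']; norm_num), h.one]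
    subst hio
    show (if (1 : ℤ) + 2 + p = 0 then h.T v c i else 0) = 0
    have h3 : h.T v c i = 0 := by
      have h4 := h.T_one v c
      rcases h4 with h4 | h4
      · exfalso
        apply hcv
        rw [h.bar_B, h4.2]
      · rw [h.T_swap23, h.T_swap12]
        exact h4.1
    rw [h3, ite_self]

end Pool.Agent.Helper77.Fusion
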