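import Mathlib

/-!
Graded commutative fusion rings, written through the symmetric numbers `T a b c`
(the coefficient of `1` in the product `a b c`).
-/

namespace Pool.Agent.Helper77.Fusion

open Finset

/-- A graded commutative fusion ring: `T a b c` is the coefficient of `1` in `a b c`, `st` the
duality, `cons a b` the set of the basis elements that occur in `a b`. -/
structure FRS (J : Type*) where
  T : J → J → J → ℕ
  st : J → J
  one : J
  deg : J → ℕ
  gr : J → ℤ
  cons : J → J → Finset J
  mem_cons : ∀ a b x, x ∈ cons a b ↔ T a b (st x) ≠ 0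
  swap12 : ∀ a b c, T a b c = T b a c
  swap23 : ∀ a b c, T a b c = T a c b
  dual : ∀ a b c, T (st a) (st b) (st c) = T a b c
  st_st : ∀ a, st (st a) = a
  one_T : ∀ a b, T one a b = 1 ∧ b = st a ∨ T one a b = 0 ∧ b ≠ st a
  deg_mul : ∀ a b, ∑ x ∈ cons a b, T a b (st x) * deg x = deg a * deg b
  assoc : ∀ a b c d, ∑ x ∈ cons a b, T a b (st x) * T x c d =
    ∑ x ∈ cons a c, T a c (st x) * T x b d
  deg_pos : ∀ a, 0 < deg a
  deg_ne_two : ∀ a, deg a ≠ 2
  deg_one : ∀ a b, deg a = 1 → deg b = 1 → gr a = gr b → a = b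
  deg_st : ∀ a, deg (st a) = deg a
  gr_st : ∀ a, gr (st a) = - gr a
  gr_T : ∀ a b c, T a b c ≠ 0 → gr a + gr b + gr c = 0

namespace FRS

variable {J : Type*} (F : FRS J)

/-- the coefficient of `1` in the product of four basis elements -/
def Q (a b c d : J) : ℕ := ∑ x ∈ F.cons a b, F.T a b (F.st x) * F.T x c d

lemma Q_swap (a b c d : J) : F.Q a b c d = F.Q a c b d := F.assoc a b c d

lemma sum_le_of_list [DecidableEq J] (a b : J) (g : J → ℕ)
    (hg : ∀ x, x ∉ F.cons a b → g x = 0) (l : List J) (hl : l.Nodup) :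
    (l.map g).sum ≤ ∑ x ∈ F.cons a b, g x := by
  classical
  have h1 : (l.map g).sum = ∑ x ∈ l.toFinset, g x := by
    rw [List.sum_toFinset _ hl]
  rw [h1]
  calc ∑ x ∈ l.toFinset, g x = ∑ x ∈ l.toFinset ∩ F.cons a b, g x := by
        symm
        apply Finset.sum_subset Finset.inter_subset_left
        intro x hx hx'
        apply hg
        intro h
        exact hx' (Finset.mem_inter.2 ⟨hx, h⟩)
    _ ≤ ∑ x ∈ F.cons a b, g x :=
        Finset.sum_le_sum_of_subset Finset.inter_subset_right

lemma T_eq_zero {a b x : J} (h : x ∉ F.cons a b) : F.T a b (F.st x) = 0 := by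
  rw [F.mem_cons] at h
  exact not_not.1 h

lemma deg_list_le (a b : J) (l : List J) (hl : l.Nodup) :
    (l.map fun x => F.T a b (F.st x) * F.deg x).sum ≤ F.deg a * F.deg b := by
  classical
  rw [← F.deg_mul a b]
  exact F.sum_le_of_list a b _ (fun x hx => by rw [F.T_eq_zero hx, zero_mul]) l hl

lemma deg_bound (a b c : J) (l : List J) (hl : l.Nodup) (hc : F.st c ∉ l) :
    (l.map fun x => F.T a b (F.st x) * F.deg x).sum + F.T a b c * F.deg c ≤
      F.deg a * F.deg b := by
  have h := F.deg_list_le a b (F.st c :: l) (List.nodup_cons.2 ⟨hc, hl⟩)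
  simp only [List.map_cons, List.sum_cons, F.st_st, F.deg_st] at h
  omega

lemma Q_list_le (a b c d : J) (l : List J) (hl : l.Nodup) :
    (l.map fun x => F.T a b (F.st x) * F.T x c d).sum ≤ F.Q a b c d := by
  classical
  exact F.sum_le_of_list a b _ (fun x hx => by rw [F.T_eq_zero hx, zero_mul]) l hl

/-- if the degrees add up, the list contains all the constituents -/
lemma cons_subset (a b : J) (l : List J) (hl : l.Nodup)
    (h : (l.map fun x => F.T a b (F.st x) * F.deg x).sum = F.deg a * F.deg b) :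
    ∀ x, F.T a b (F.st x) ≠ 0 → x ∈ l := by
  intro x hx
  by_contra hxl
  have := F.deg_bound a b (F.st x) l hl (by rwa [F.st_st])
  have h1 : 0 < F.T a b (F.st x) * F.deg (F.st x) :=
    Nat.mul_pos (Nat.pos_of_ne_zero hx) (F.deg_pos _)
  omega

lemma Q_eq (a b c d : J) (l : List J) (hl : l.Nodup)
    (h : (l.map fun x => F.T a b (F.st x) * F.deg x).sum = F.deg a * F.deg b) :
    F.Q a b c d = (l.map fun x => F.T a b (F.st x) * F.T x c d).sum := by
  classical
  have h1 : (l.map fun x => F.T a b (F.st x) * F.T x c d).sum =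
      ∑ x ∈ l.toFinset, F.T a b (F.st x) * F.T x c d := by
    rw [List.sum_toFinset _ hl]
  rw [h1, Q]
  apply Finset.sum_subset
  · intro x hx
    rw [List.mem_toFinset]
    exact F.cons_subset a b l hl h x ((F.mem_cons a b x).1 hx)
  · intro x _ hx'
    rw [F.T_eq_zero hx', zero_mul]

/-- the norm of a product -/
lemma Q_norm (a b : J) :
    F.Q a b (F.st a) (F.st b) = ∑ x ∈ F.cons a b, F.T a b (F.st x) ^ 2 := by
  rw [Q]
  apply Finset.sum_congr rfl
  intro x _
  have : F.T x (F.st a) (F.st b) = F.T a b (F.st x) := by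
    rw [← F.dual x, F.st_st, F.st_st, F.swap12, F.swap23]
  rw [this, sq]

lemma one_mul_T_eq (a b : J) (h : b = F.st a) : F.T F.one a b = 1 := by
  rcases F.one_T a b with h1 | h1
  · exact h1.1
  · exact absurd h h1.2

lemma one_mul_T_ne (a b : J) (h : b ≠ F.st a) : F.T F.one a b = 0 := by
  rcases F.one_T a b with h1 | h1
  · exact absurd h1.2 h
  · exact h1.1

lemma deg_le (a b c : J) : F.T a b c * F.deg c ≤ F.deg a * F.deg b := by
  have := F.deg_bound a b c [] List.nodup_nil (by simp)
  simpa using this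

lemma deg_le' (a b c : J) : F.T a b c * F.deg a ≤ F.deg c * F.deg b := by
  have h := F.deg_le c b a
  have e : F.T c b a = F.T a b c := by
    rw [F.swap12, F.swap23, F.swap12]
  rwa [e] at h

lemma deg_le'' (a b c : J) : F.T a b c * F.deg b ≤ F.deg c * F.deg a := by
  have h := F.deg_le' b a c
  rwa [F.swap12] at h

end FRS

end Pool.Agent.Helper77.Fusion
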