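import Pool.Agent.Helper77.Fusion.Defs
import Pool.Agent.Helper77.Fusion.Sem

/-!
From a C-NITA to a graded fusion ring on `ι × ℤ`.
-/

namespace Pool.Agent.Helper77.Fusion

open Module Finset

variable {A ι : Type*} [CommRing A] [Algebra ℂ A] {B : Basis ι ℂ A} {o : ι}
  {bar : A ≃ₐ[ℂ] A} {deg : A →ₐ[ℂ] ℂ}

namespace IsCNITA

variable (h : IsCNITA B o bar deg)

/-- the duality on the index set -/
noncomputable def st (i : ι) : ι := (h.bar_basis i).choose

lemma bar_B (i : ι) : bar (B i) = B (h.st i) := (h.bar_basis i).choose_spec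

lemma st_st (i : ι) : h.st (h.st i) = i := by
  apply B.injective
  rw [← h.bar_B, ← h.bar_B, h.bar_bar]

lemma st_inj {i j : ι} (hij : h.st i = h.st j) : i = j := by
  rw [← h.st_st i, hij, h.st_st]

lemma st_o : h.st o = o := by
  apply B.injective
  rw [← h.bar_B, h.one, map_one]

/-- the structure constants -/
noncomputable def N (i j m : ι) : ℕ := (h.coef i j m).choose

lemma N_spec (i j m : ι) : B.repr (B i * B j) m = h.N i j m := (h.coef i j m).choose_spec

/-- the degrees -/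
noncomputable def d (i : ι) : ℕ := (h.deg_pos i).choose

lemma d_pos (i : ι) : 0 < h.d i := (h.deg_pos i).choose_spec.1

lemma d_spec (i : ι) : deg (B i) = h.d i := (h.deg_pos i).choose_spec.2

/-- the coefficient of `1` -/
noncomputable def tau (B : Basis ι ℂ A) (o : ι) (x : A) : ℂ := B.repr x o

open scoped Classical in
lemma tau_mul (i j : ι) : tau B o (B i * B j) = if j = h.st i then 1 else 0 := by
  split_ifs with hj
  · subst hj
    rw [← h.bar_B]
    exact h.norm i
  · obtain ⟨g, _, hg⟩ := h.ta3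
    unfold tau
    rw [hg, h.one, mul_one, h.bar_B, Basis.repr_self, Finsupp.single_apply, if_neg, mul_zero]
    intro h1
    apply hj
    rw [← h1, h.st_st]

lemma expand (x : A) : x = ∑ m ∈ (B.repr x).support, B.repr x m • B m := by
  conv_lhs => rw [← B.linearCombination_repr x]
  rw [Finsupp.linearCombination_apply, Finsupp.sum]

lemma tau_sum {α : Type*} (s : Finset α) (f : α → ℂ) (g : α → A) :
    tau B o (∑ a ∈ s, f a • g a) = ∑ a ∈ s, f a * tau B o (g a) := by
  unfold tau
  rw [map_sum, Finsupp.finsetSum_apply]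
  exact Finset.sum_congr rfl fun a _ => by rw [map_smul]; rfl

lemma tau_mul_right (x : A) (k : ι) : tau B o (x * B k) = B.repr x (h.st k) := by
  classical
  conv_lhs => rw [expand (B := B) x, Finset.sum_mul]
  have h1 : ∀ m ∈ (B.repr x).support, B.repr x m • B m * B k = B.repr x m • (B m * B k) :=
    fun m _ => by rw [smul_mul_assoc]
  rw [Finset.sum_congr rfl h1, tau_sum]
  have h2 : ∀ m ∈ (B.repr x).support, B.repr x m * tau B o (B m * B k) =
      if m = h.st k then B.repr x (h.st k) else 0 := by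
    intro m _
    rw [h.tau_mul]
    by_cases hm : m = h.st k
    · subst hm
      rw [h.st_st, if_pos rfl, if_pos rfl, mul_one]
    · rw [if_neg hm, if_neg, mul_zero]
      intro h3
      apply hm
      rw [h3, h.st_st]
  rw [Finset.sum_congr rfl h2, Finset.sum_ite_eq']
  split_ifs with h3
  · rfl
  · rw [Finsupp.mem_support_iff, not_not] at h3
    exact h3.symm

/-- the symmetric numbers -/
noncomputable def T (a b c : ι) : ℕ := h.N a b (h.st c)

lemma T_tau (a b c : ι) : (h.T a b c : ℂ) = tau B o (B a * B b * B c) := by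
  rw [h.tau_mul_right, T, h.N_spec]

lemma T_swap12 (a b c : ι) : h.T a b c = h.T b a c := by
  have : (h.T a b c : ℂ) = h.T b a c := by rw [h.T_tau, h.T_tau, mul_comm (B a)]
  exact_mod_cast this

lemma T_swap23 (a b c : ι) : h.T a b c = h.T a c b := by
  have : (h.T a b c : ℂ) = h.T a c b := by rw [h.T_tau, h.T_tau, mul_assoc, mul_comm (B b),
    ← mul_assoc]
  exact_mod_cast this

lemma repr_bar (x : A) (m : ι) : B.repr (bar x) (h.st m) = B.repr x m := by
  classical
  conv_lhs => rw [expand (B := B) x]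
  rw [map_sum, map_sum, Finsupp.finsetSum_apply]
  have h2 : ∀ k ∈ (B.repr x).support, (B.repr (bar (B.repr x k • B k))) (h.st m) =
      if k = m then B.repr x m else 0 := by
    intro k _
    rw [map_smul, map_smul, h.bar_B, Basis.repr_self, Finsupp.smul_apply, Finsupp.single_apply]
    by_cases hk : k = m
    · subst hk
      simp
    · rw [if_neg hk, if_neg, smul_zero]
      intro h3
      exact hk (h.st_inj h3)
  rw [Finset.sum_congr rfl h2, Finset.sum_ite_eq']
  split_ifs with h3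
  · rfl
  · rw [Finsupp.mem_support_iff, not_not] at h3
    exact h3.symm

lemma T_dual (a b c : ι) : h.T (h.st a) (h.st b) (h.st c) = h.T a b c := by
  have : (h.T (h.st a) (h.st b) (h.st c) : ℂ) = h.T a b c := by
    rw [T, T, ← h.N_spec, ← h.N_spec, ← h.bar_B a, ← h.bar_B b, ← map_mul, h.repr_bar]
  exact_mod_cast this

lemma T_one (a b : ι) : h.T o a b = 1 ∧ b = h.st a ∨ h.T o a b = 0 ∧ b ≠ h.st a := by
  classical
  have h1 : (h.T o a b : ℂ) = if b = h.st a then 1 else 0 := by
    rw [h.T_tau, h.one, one_mul, h.tau_mul]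
  by_cases hb : b = h.st a
  · left
    rw [if_pos hb] at h1
    exact ⟨by exact_mod_cast h1, hb⟩
  · right
    rw [if_neg hb] at h1
    exact ⟨by exact_mod_cast h1, hb⟩

/-- the constituents of a product -/
noncomputable def cons (_ : IsCNITA B o bar deg) (a b : ι) : Finset ι := (B.repr (B a * B b)).support

lemma T_st (a b x : ι) : (h.T a b (h.st x) : ℂ) = B.repr (B a * B b) x := by
  rw [T, h.st_st, h.N_spec]

lemma mem_cons (a b x : ι) : x ∈ h.cons a b ↔ h.T a b (h.st x) ≠ 0 := by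
  rw [cons, Finsupp.mem_support_iff, ← h.T_st]
  exact Nat.cast_ne_zero

lemma prod_eq (a b : ι) : B a * B b = ∑ x ∈ h.cons a b, (h.T a b (h.st x) : ℂ) • B x := by
  conv_lhs => rw [expand (B := B) (B a * B b)]
  exact Finset.sum_congr rfl fun x _ => by rw [h.T_st]

lemma deg_mul (a b : ι) : ∑ x ∈ h.cons a b, h.T a b (h.st x) * h.d x = h.d a * h.d b := by
  have h1 : deg (B a * B b) = (h.d a * h.d b : ℕ) := by
    rw [map_mul, h.d_spec, h.d_spec, Nat.cast_mul]
  rw [h.prod_eq, map_sum] at h1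
  have h2 : (∑ x ∈ h.cons a b, (h.T a b (h.st x) * h.d x : ℕ) : ℂ) =
      ∑ x ∈ h.cons a b, deg ((h.T a b (h.st x) : ℂ) • B x) :=
    Finset.sum_congr rfl fun x _ => by
      rw [map_smul, h.d_spec, Nat.cast_mul, smul_eq_mul]
  rw [← h2] at h1
  exact_mod_cast h1

lemma assoc (a b c d : ι) : ∑ x ∈ h.cons a b, h.T a b (h.st x) * h.T x c d =
    ∑ x ∈ h.cons a c, h.T a c (h.st x) * h.T x b d := by
  have key : ∀ a b c d, ((∑ x ∈ h.cons a b, h.T a b (h.st x) * h.T x c d : ℕ) : ℂ) =
      tau B o (B a * B b * B c * B d) := by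
    intro a b c d
    rw [h.prod_eq, Finset.sum_mul, Finset.sum_mul]
    have h1 : ∀ x ∈ h.cons a b, (h.T a b (h.st x) : ℂ) • B x * B c * B d =
        (h.T a b (h.st x) : ℂ) • (B x * B c * B d) := fun x _ => by
      rw [smul_mul_assoc, smul_mul_assoc]
    rw [Finset.sum_congr rfl h1, tau_sum]
    push_cast
    exact Finset.sum_congr rfl fun x _ => by rw [← h.T_tau]
  have : ((∑ x ∈ h.cons a b, h.T a b (h.st x) * h.T x c d : ℕ) : ℂ) =
      ((∑ x ∈ h.cons a c, h.T a c (h.st x) * h.T x b d : ℕ) : ℂ) := by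
    rw [key, key]
    congr 1
    ring
  exact_mod_cast this

lemma d_st (i : ι) : h.d (h.st i) = h.d i := by
  have : (h.d (h.st i) : ℂ) = h.d i := by
    rw [← h.d_spec, ← h.bar_B, h.deg_bar, h.d_spec]
  exact_mod_cast this

/-- the embedding of `ι` as the elements of grade `r` -/
def gemb (r : ℤ) : ι ↪ ι × ℤ := ⟨fun x => (x, r), fun _ _ h => (Prod.mk.inj h).1⟩

lemma gemb_apply (r : ℤ) (x : ι) : gemb r x = (x, r) := rfl

/-- the graded fusion ring on `ι × ℤ` -/
noncomputable def frs (h1 : ∀ i, deg (B i) = 1 → B i = 1) (h2 : ∀ i, deg (B i) ≠ 2) :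
    FRS (ι × ℤ) where
  T a b c := if a.2 + b.2 + c.2 = 0 then h.T a.1 b.1 c.1 else 0
  st a := (h.st a.1, -a.2)
  one := (o, 0)
  deg a := h.d a.1
  gr a := a.2
  cons a b := (h.cons a.1 b.1).map (gemb (a.2 + b.2))
  mem_cons := by
    rintro ⟨a, p⟩ ⟨b, q⟩ ⟨x, r⟩
    simp only [Finset.mem_map, gemb_apply, Prod.mk.injEq, ne_eq, ite_eq_right_iff,
      Classical.not_imp]
    constructor
    · rintro ⟨y, hy, rfl, rfl⟩
      exact ⟨by ring, (h.mem_cons a b y).1 hy⟩
    · rintro ⟨h3, h4⟩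
      exact ⟨x, (h.mem_cons a b x).2 h4, rfl, by omega⟩
  swap12 := by
    rintro ⟨a, p⟩ ⟨b, q⟩ ⟨c, r⟩
    simp only [h.T_swap12 a b c, add_comm p q]
  swap23 := by
    rintro ⟨a, p⟩ ⟨b, q⟩ ⟨c, r⟩
    simp only [h.T_swap23 a b c, add_right_comm p q r]
  dual := by
    rintro ⟨a, p⟩ ⟨b, q⟩ ⟨c, r⟩
    simp only [h.T_dual]
    congr 1
    apply propext
    constructor <;> intro h3 <;> omega
  st_st := by
    rintro ⟨a, p⟩
    simp only [h.st_st, neg_neg]
  one_T := by
    rintro ⟨a, p⟩ ⟨b, q⟩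
    simp only [Prod.mk.injEq, ne_eq, not_and]
    by_cases hpq : 0 + p + q = 0
    · rw [if_pos hpq]
      rcases h.T_one a b with h3 | h3
      · exact Or.inl ⟨h3.1, h3.2, by omega⟩
      · exact Or.inr ⟨h3.1, fun h4 => absurd h4 h3.2⟩
    · rw [if_neg hpq]
      exact Or.inr ⟨rfl, fun _ => by omega⟩
  deg_mul := by
    rintro ⟨a, p⟩ ⟨b, q⟩
    simp only [Finset.sum_map, gemb_apply, add_neg_cancel, if_true]
    exact h.deg_mul a b
  assoc := by
    rintro ⟨a, p⟩ ⟨b, q⟩ ⟨c, r⟩ ⟨d, t⟩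
    simp only [Finset.sum_map, gemb_apply, add_neg_cancel, if_true]
    by_cases h3 : p + q + r + t = 0
    · have h4 : p + r + q + t = 0 := by omega
      refine Eq.trans (Finset.sum_congr rfl fun x _ => ?_)
        (Eq.trans (h.assoc a b c d) (Finset.sum_congr rfl fun x _ => ?_))
      · exact congrArg (h.T a b (h.st x) * ·) (if_pos h3)
      · exact congrArg (h.T a c (h.st x) * ·) (if_pos h4).symm
    · have h4 : ¬ p + r + q + t = 0 := by omega
      refine Eq.trans (Finset.sum_eq_zero fun x _ => ?_) (Finset.sum_eq_zero fun x _ => ?_).symm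
      · exact (congrArg (h.T a b (h.st x) * ·) (if_neg h3)).trans (mul_zero _)
      · exact (congrArg (h.T a c (h.st x) * ·) (if_neg h4)).trans (mul_zero _)
  deg_pos := fun a => h.d_pos a.1
  deg_ne_two := by
    rintro ⟨a, p⟩ h3
    simp only at h3
    apply h2 a
    rw [h.d_spec, h3]
    norm_num
  deg_one := by
    rintro ⟨a, p⟩ ⟨b, q⟩ h3 h4 h5
    simp only at h3 h4 h5
    have h6 := h1 a (by rw [h.d_spec, h3]; norm_num)
    have h7 := h1 b (by rw [h.d_spec, h4]; norm_num)
    rw [Prod.mk.injEq]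
    exact ⟨B.injective (by rw [h6, h7]), h5⟩
  deg_st := fun a => h.d_st a.1
  gr_st := fun a => rfl
  gr_T := by
    rintro ⟨a, p⟩ ⟨b, q⟩ ⟨c, r⟩ h3
    by_contra h4
    exact h3 (if_neg h4)

end IsCNITA

end Pool.Agent.Helper77.Fusion
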