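import Pool.Agent.Helper77.Fusion.Check

/-!
Soundness of the certificate checker, part 1: tables and sums.
-/

namespace Pool.Agent.Helper77.Fusion

open Finset

lemma entry_or (w T i j v : ℕ) (hv : v < 2 ^ w) :
    ((T ||| (v <<< (w * i))) >>> (w * j)) % 2 ^ w =
      if i = j then ((T >>> (w * j)) % 2 ^ w) ||| v else (T >>> (w * j)) % 2 ^ w := by
  have hbig : ∀ k, w ≤ k → v.testBit k = false := fun k hk =>
    Nat.testBit_lt_two_pow (lt_of_lt_of_le hv (Nat.pow_le_pow_right (by norm_num) hk))
  split_ifs with h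
  · subst h
    apply Nat.eq_of_testBit_eq
    intro k
    simp only [Nat.testBit_mod_two_pow, Nat.testBit_shiftRight, Nat.testBit_or,
      Nat.testBit_shiftLeft]
    by_cases hk : k < w
    · have h1 : w * i + k - w * i = k := by omega
      simp [hk]
    · simp [hk, hbig k (by omega)]
  · apply Nat.eq_of_testBit_eq
    intro k
    simp only [Nat.testBit_mod_two_pow, Nat.testBit_shiftRight, Nat.testBit_or,
      Nat.testBit_shiftLeft]
    by_cases hk : k < w
    · rcases lt_or_gt_of_ne h with h1 | h1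
      · have h2 : w * i + w ≤ w * j := by
          calc w * i + w = w * (i + 1) := by ring
            _ ≤ w * j := Nat.mul_le_mul_left _ h1
        have h3 : v.testBit (w * j + k - w * i) = false := hbig _ (by omega)
        simp [hk, h3]
      · have h2 : w * j + w ≤ w * i := by
          calc w * j + w = w * (j + 1) := by ring
            _ ≤ w * i := Nat.mul_le_mul_left _ h1
        have h3 : ¬ (w * i ≤ w * j + k) := by omega
        simp [hk, h3]
    · simp [hk]

lemma idx3_inj {x y z x' y' z' : ℕ} (h1 : x ≤ y) (h2 : y ≤ z) (h1' : x' ≤ y') (h2' : y' ≤ z')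
    (h : idx3 x y z = idx3 x' y' z') : x = x' ∧ y = y' ∧ z = z' := by
  have key : ∀ {x y z x' y' z' : ℕ}, x ≤ y → y ≤ z → x' ≤ y' → y' ≤ z' →
      idx3 x y z = idx3 x' y' z' → ¬ z < z' := by
    intro x y z x' y' z' h1 h2 h1' h2' h hz
    have h3 : z + 1 ≤ z' := hz
    have h4 : (z + 1) * (z + 1) * (z + 1) ≤ z' * z' * z' :=
      Nat.mul_le_mul (Nat.mul_le_mul h3 h3) h3
    have h5 : y * y ≤ z * z := Nat.mul_le_mul h2 h2
    unfold idx3 at h
    nlinarith
  have hz : z = z' := le_antisymm (not_lt.1 (key h1' h2' h1 h2 h.symm)) (not_lt.1 (key h1 h2 h1' h2' h))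
  subst hz
  have h3 : y * y + x = y' * y' + x' := by
    unfold idx3 at h
    omega
  have key2 : ∀ {x y x' y' : ℕ}, x ≤ y → x' ≤ y' → y * y + x = y' * y' + x' → ¬ y < y' := by
    intro x y x' y' h1 h1' h hy
    have h4 : (y + 1) * (y + 1) ≤ y' * y' := Nat.mul_le_mul hy hy
    nlinarith
  have hy : y = y' := le_antisymm (not_lt.1 (key2 h1' h1 h3.symm)) (not_lt.1 (key2 h1 h1' h3))
  subst hy
  exact ⟨by omega, rfl, rfl⟩

lemma idx_cases (a b c : ℕ) : ∃ x y z, x ≤ y ∧ y ≤ z ∧ idx a b c = idx3 x y z ∧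
    ((x = a ∧ y = b ∧ z = c) ∨ (x = a ∧ y = c ∧ z = b) ∨ (x = c ∧ y = a ∧ z = b) ∨
      (x = b ∧ y = a ∧ z = c) ∨ (x = b ∧ y = c ∧ z = a) ∨ (x = c ∧ y = b ∧ z = a)) := by
  unfold idx
  cases h1 : Nat.ble a b <;> cases h2 : Nat.ble b c <;> cases h3 : Nat.ble a c <;>
    simp only [cond_true, cond_false] <;>
    (try rw [Nat.ble_eq] at h1) <;> (try rw [Nat.ble_eq] at h2) <;>
    (try rw [Nat.ble_eq] at h3) <;>
    (try replace h1 := Nat.lt_of_not_le (fun h => by rw [← Nat.ble_eq, h1] at h; exact Bool.noConfusion h)) <;>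
    (try replace h2 := Nat.lt_of_not_le (fun h => by rw [← Nat.ble_eq, h2] at h; exact Bool.noConfusion h)) <;>
    (try replace h3 := Nat.lt_of_not_le (fun h => by rw [← Nat.ble_eq, h3] at h; exact Bool.noConfusion h))
  · exact ⟨c, b, a, by omega, by omega, rfl, by simp⟩
  · exact ⟨b, a, c, by omega, by omega, rfl, by simp⟩
  · exact ⟨b, c, a, by omega, by omega, rfl, by simp⟩
  · exact ⟨b, a, c, by omega, by omega, rfl, by simp⟩
  · exact ⟨c, a, b, by omega, by omega, rfl, by simp⟩
  · exact ⟨a, c, b, by omega, by omega, rfl, by simp⟩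
  · exact ⟨a, b, c, by omega, by omega, rfl, by simp⟩
  · exact ⟨a, b, c, by omega, by omega, rfl, by simp⟩

lemma ld4_setE (T i t j m : ℕ) (ht : t < 15) (h : ld4 (setE T i t) j = m + 1) :
    ld4 T j = m + 1 ∨ (j = i ∧ m = t) := by
  unfold setE at h
  cases h1 : Nat.beq (ld4 T i) 0
  · rw [h1] at h
    exact Or.inl h
  · rw [h1] at h
    rw [Nat.beq_eq] at h1
    simp only [cond_true] at h
    unfold ld4 at h h1 ⊢
    have h2 := entry_or 4 T i j (t + 1) (by norm_num; omega)
    norm_num at h2
    rw [h2] at h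
    split_ifs at h with h3
    · subst h3
      rw [h1, Nat.zero_or] at h
      exact Or.inr ⟨rfl, by omega⟩
    · exact Or.inl h

variable {J : Type*} (F : FRS J)

/-- the meaning of a state of the checker -/
structure Ok (s : St) (v : ℕ → J) : Prop where
  gr : ∀ i < s.n, F.gr (v i) + 16 = (grd s.A i : ℤ)
  deg : ∀ i < s.n, F.deg (v i) = dgr s.A i
  du : ∀ i < s.n, dus s.A i < s.n ∧ v (dus s.A i) = F.st (v i)
  inj : ∀ i < s.n, ∀ j < s.n, v i = v j → i = j
  tab : ∀ x y z, x ≤ y → y ≤ z → z < s.n → ∀ t, ld4 s.T (idx3 x y z) = t + 1 →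
    F.T (v x) (v y) (v z) = t
  pos : 5 ≤ s.n
  one : v 0 = F.one
  vc : ∀ x, F.deg x = 1 → F.T (v 1) (v 4) x = 0
  foc : ∀ x, F.T (v s.fa) (v s.fb) (F.st x) ≠ 0 →
    (∃ i < s.n, v i = x) ∨ F.deg x * 64 + F.T (v s.fa) (v s.fb) (F.st x) ≤ s.fc

variable {F}

lemma T_perm (a b c : J) : F.T a c b = F.T a b c ∧ F.T c a b = F.T a b c ∧
    F.T b a c = F.T a b c ∧ F.T b c a = F.T a b c ∧ F.T c b a = F.T a b c := by
  have h1 : F.T a c b = F.T a b c := (F.swap23 a b c).symm
  have h2 : F.T b a c = F.T a b c := (F.swap12 a b c).symm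
  have h3 : F.T c a b = F.T a b c := by rw [F.swap12, h1]
  have h4 : F.T b c a = F.T a b c := by rw [F.swap23, h2]
  have h5 : F.T c b a = F.T a b c := by rw [F.swap12, h4]
  exact ⟨h1, h3, h2, h4, h5⟩

lemma Ok.look {s : St} {v : ℕ → J} (H : Ok F s v) {a b c t : ℕ} (ha : a < s.n) (hb : b < s.n)
    (hc : c < s.n) (h : look s.T a b c = t + 1) : F.T (v a) (v b) (v c) = t := by
  obtain ⟨x, y, z, h1, h2, h3, h4⟩ := idx_cases a b c
  unfold Fusion.look at h
  rw [h3] at h
  have hp := T_perm (F := F) (v a) (v b) (v c)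
  rcases h4 with ⟨rfl, rfl, rfl⟩ | ⟨rfl, rfl, rfl⟩ | ⟨rfl, rfl, rfl⟩ | ⟨rfl, rfl, rfl⟩ |
    ⟨rfl, rfl, rfl⟩ | ⟨rfl, rfl, rfl⟩
  · exact H.tab _ _ _ h1 h2 hc _ h
  · rw [← H.tab _ _ _ h1 h2 hb _ h]
    exact hp.1.symm
  · rw [← H.tab _ _ _ h1 h2 hb _ h]
    exact hp.2.1.symm
  · rw [← H.tab _ _ _ h1 h2 hc _ h]
    exact hp.2.2.1.symm
  · rw [← H.tab _ _ _ h1 h2 ha _ h]
    exact hp.2.2.2.1.symm
  · rw [← H.tab _ _ _ h1 h2 ha _ h]
    exact hp.2.2.2.2.symm

lemma Ok.setE {s : St} {v : ℕ → J} (H : Ok F s v) {a b c t : ℕ} (ha : a < s.n) (hb : b < s.n)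
    (hc : c < s.n) (ht : t < 15) (h : F.T (v a) (v b) (v c) = t) :
    Ok F ⟨s.n, s.A, setE s.T (idx a b c) t, s.fa, s.fb, s.fc⟩ v := by
  refine ⟨H.gr, H.deg, H.du, H.inj, ?_, H.pos, H.one, H.vc, H.foc⟩
  intro x y z h1 h2 h3 m hm
  rcases ld4_setE _ _ _ _ _ ht hm with h4 | ⟨h4, rfl⟩
  · exact H.tab x y z h1 h2 h3 m h4
  · obtain ⟨x', y', z', h1', h2', h3', h4'⟩ := idx_cases a b c
    rw [h3'] at h4
    obtain ⟨rfl, rfl, rfl⟩ := idx3_inj h1 h2 h1' h2' h4
    have hp := T_perm (F := F) (v a) (v b) (v c)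
    rw [← h]
    rcases h4' with ⟨rfl, rfl, rfl⟩ | ⟨rfl, rfl, rfl⟩ | ⟨rfl, rfl, rfl⟩ | ⟨rfl, rfl, rfl⟩ |
      ⟨rfl, rfl, rfl⟩ | ⟨rfl, rfl, rfl⟩
    · rfl
    · exact hp.1
    · exact hp.2.1
    · exact hp.2.2.1
    · exact hp.2.2.2.1
    · exact hp.2.2.2.2

lemma withT_sound {s : St} {v : ℕ → J} (H : Ok F s v) {a b c t : ℕ} {f : St → Bool}
    (ha : a < s.n) (hb : b < s.n) (hc : c < s.n) (h : F.T (v a) (v b) (v c) = t)
    (hw : withT s a b c t f = true)
    (hf : ∀ s', f s' = true → Ok F s' v → s'.n = s.n → False) : False := by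
  obtain ⟨n, A, T, fa, fb, fc⟩ := s
  unfold withT at hw
  simp only at hw
  cases hl : look T a b c with
  | zero =>
    rw [hl] at hw
    simp only at hw
    cases h15 : Nat.blt t 15
    · rw [h15] at hw
      simp at hw
    · rw [h15] at hw
      simp only [cond_true] at hw
      rw [force_eq] at hw
      rw [Nat.blt_eq] at h15
      have h1 := H.setE ha hb hc h15 h
      have hda := H.du a ha
      have hdb := H.du b hb
      have hdc := H.du c hc
      have h2 := h1.setE (a := dus A a) (b := dus A b) (c := dus A c) (t := t)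
        hda.1 hdb.1 hdc.1 h15 (by rw [hda.2, hdb.2, hdc.2, F.dual, h])
      exact hf _ hw h2 rfl
  | succ m =>
    rw [hl] at hw
    simp only at hw
    cases hm : Nat.beq m t
    · have h2 := H.look ha hb hc hl
      have : m = t := by rw [← h2, h]
      rw [this] at hm
      simp at hm
    · rw [hm] at hw
      simp only [cond_true] at hw
      exact hf _ hw H rfl

/-- meaning of the degree sum -/
lemma sdl_sound {s : St} {v : ℕ → J} (H : Ok F s v) {a b : ℕ} (ha : a < s.n) (hb : b < s.n) :
    ∀ (l : List ℕ) (lo p : ℕ), sdl s.n s.A s.T a b l lo = some p →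
      (∀ x ∈ l, lo ≤ x ∧ x < s.n) ∧ (l.map v).Nodup ∧
      ((l.map v).map fun x => F.T (v a) (v b) (F.st x) * F.deg x).sum = p := by
  intro l
  induction l with
  | nil =>
    intro lo p h
    simp only [sdl, Option.some.injEq] at h
    simp [← h]
  | cons x l ih =>
    intro lo p h
    rw [sdl] at h
    cases h1 : (Nat.ble lo x && Nat.blt x s.n)
    · rw [h1] at h
      simp at h
    · rw [h1] at h
      rw [Bool.and_eq_true, Nat.ble_eq, Nat.blt_eq] at h1
      simp only [cond_true] at h
      cases h2 : look s.T a b (dus s.A x) with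
      | zero => rw [h2] at h; simp at h
      | succ t =>
        rw [h2] at h
        simp only at h
        cases h3 : sdl s.n s.A s.T a b l (x + 1) with
        | none => rw [h3] at h; simp at h
        | some q =>
          rw [h3] at h
          simp only [Option.some.injEq] at h
          obtain ⟨i1, i2, i3⟩ := ih _ _ h3
          have hdx := H.du x h1.2
          have h4 := H.look ha hb hdx.1 h2
          rw [hdx.2] at h4
          refine ⟨?_, ?_, ?_⟩
          · intro y hy
            rcases List.mem_cons.1 hy with rfl | hy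
            · exact h1
            · exact ⟨by have := (i1 y hy).1; omega, (i1 y hy).2⟩
          · rw [List.map_cons, List.nodup_cons]
            refine ⟨?_, i2⟩
            intro hx
            obtain ⟨y, hy, hyx⟩ := List.mem_map.1 hx
            have := H.inj y (i1 y hy).2 x h1.2 hyx
            have := (i1 y hy).1
            omega
          · rw [List.map_cons, List.map_cons, List.sum_cons, i3, h4, H.deg x h1.2]
            exact h

/-- meaning of the combined sum -/
lemma sm_sound {s : St} {v : ℕ → J} (H : Ok F s v) {a b c d : ℕ} (ha : a < s.n) (hb : b < s.n)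
    (hc : c < s.n) (hd : d < s.n) :
    ∀ (l : List ℕ) (lo p q : ℕ), sm s.n s.A s.T a b c d l lo = some (p, q) →
      (∀ x ∈ l, lo ≤ x ∧ x < s.n) ∧ (l.map v).Nodup ∧
      ((l.map v).map fun x => F.T (v a) (v b) (F.st x) * F.deg x).sum = p ∧
      ((l.map v).map fun x => F.T (v a) (v b) (F.st x) * F.T x (v c) (v d)).sum = q := by
  intro l
  induction l with
  | nil =>
    intro lo p q h
    simp only [sm, Option.some.injEq, Prod.mk.injEq] at h
    simp [← h.1, ← h.2]
  | cons x l ih =>
    intro lo p q h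
    rw [sm] at h
    cases h1 : (Nat.ble lo x && Nat.blt x s.n)
    · rw [h1] at h
      simp at h
    · rw [h1] at h
      rw [Bool.and_eq_true, Nat.ble_eq, Nat.blt_eq] at h1
      simp only [cond_true] at h
      cases h2 : look s.T a b (dus s.A x) with
      | zero => rw [h2] at h; simp at h
      | succ t =>
        rw [h2] at h
        simp only at h
        cases h2' : look s.T x c d with
        | zero => rw [h2'] at h; simp at h
        | succ u =>
        rw [h2'] at h
        simp only at h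
        cases h3 : sm s.n s.A s.T a b c d l (x + 1) with
        | none => rw [h3] at h; simp at h
        | some pq =>
          obtain ⟨p', q'⟩ := pq
          rw [h3] at h
          simp only [Option.some.injEq, Prod.mk.injEq] at h
          obtain ⟨i1, i2, i3, i4⟩ := ih _ _ _ h3
          have hdx := H.du x h1.2
          have h4 := H.look ha hb hdx.1 h2
          rw [hdx.2] at h4
          have h5 := H.look h1.2 hc hd h2'
          refine ⟨?_, ?_, ?_, ?_⟩
          · intro y hy
            rcases List.mem_cons.1 hy with rfl | hy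
            · exact h1
            · exact ⟨by have := (i1 y hy).1; omega, (i1 y hy).2⟩
          · rw [List.map_cons, List.nodup_cons]
            refine ⟨?_, i2⟩
            intro hx
            obtain ⟨y, hy, hyx⟩ := List.mem_map.1 hx
            have := H.inj y (i1 y hy).2 x h1.2 hyx
            have := (i1 y hy).1
            omega
          · rw [List.map_cons, List.map_cons, List.sum_cons, i3, h4, H.deg x h1.2]
            exact h.1
          · rw [List.map_cons, List.map_cons, List.sum_cons, i4, h4, h5]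
            exact h.2

lemma nin_sound (x : ℕ) : ∀ l : List ℕ, nin x l = true → x ∉ l := by
  intro l
  induction l with
  | nil => intro _; simp
  | cons y l ih =>
    intro h
    rw [nin] at h
    cases h1 : Nat.beq x y
    · rw [h1] at h
      simp only [cond_false] at h
      have h2 : x ≠ y := by
        intro e
        rw [e] at h1
        simp at h1
      rw [List.mem_cons]
      push Not
      exact ⟨h2, ih h⟩
    · rw [h1] at h
      simp at h

end Pool.Agent.Helper77.Fusion
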