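import Pool.Agent.Helper77.Fusion.Sound

/-!
Soundness of the certificate checker, part 2: new vertices.
-/

namespace Pool.Agent.Helper77.Fusion

open Finset

variable {J : Type*} {F : FRS J}

/-- the known vertices of grade `g` -/
def gset (A g k : ℕ) : Finset ℕ := (Finset.range k).filter fun i => grd A i = g

lemma gset_succ_of_eq {A g k : ℕ} (h : grd A k = g) : gset A g (k + 1) = insert k (gset A g k) := by
  unfold gset
  rw [Finset.range_add_one, Finset.filter_insert, if_pos h]

lemma gset_succ_of_ne {A g k : ℕ} (h : grd A k ≠ g) : gset A g (k + 1) = gset A g k := by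
  unfold gset
  rw [Finset.range_add_one, Finset.filter_insert, if_neg h]

lemma not_mem_gset (A g k : ℕ) : k ∉ gset A g k := by
  simp [gset]

lemma scan_sound {s : St} {v : ℕ → J} (H : Ok F s v) {a b g : ℕ} (ha : a < s.n) (hb : b < s.n) :
    ∀ k ≤ s.n, ∀ p q, scan s.A s.T a b g k = some (p, q) →
      ∑ i ∈ gset s.A g k, F.T (v a) (v b) (F.st (v i)) * F.deg (v i) = p ∧
      ∑ i ∈ gset s.A g k, F.T (v a) (v b) (F.st (v i)) ^ 2 = q := by
  intro k
  induction k with
  | zero =>
    intro _ p q h
    simp only [scan, Option.some.injEq, Prod.mk.injEq] at h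
    simp [gset, ← h.1, ← h.2]
  | succ k ih =>
    intro hk p q h
    rw [scan] at h
    cases h1 : scan s.A s.T a b g k with
    | none => rw [h1] at h; simp at h
    | some pq =>
      obtain ⟨p', q'⟩ := pq
      rw [h1] at h
      simp only at h
      obtain ⟨i1, i2⟩ := ih (by omega) _ _ h1
      cases h2 : Nat.beq (grd s.A k) g
      · rw [h2] at h
        simp only [cond_false, Option.some.injEq, Prod.mk.injEq] at h
        have h3 : grd s.A k ≠ g := by
          intro e
          rw [e] at h2
          simp at h2
        rw [gset_succ_of_ne h3, ← h.1, ← h.2]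
        exact ⟨i1, i2⟩
      · rw [h2] at h
        rw [Nat.beq_eq] at h2
        simp only [cond_true] at h
        cases h3 : look s.T a b (dus s.A k) with
        | zero => rw [h3] at h; simp at h
        | succ t =>
          rw [h3] at h
          simp only [Option.some.injEq, Prod.mk.injEq] at h
          have hdx := H.du k (by omega)
          have h4 := H.look ha hb hdx.1 h3
          rw [hdx.2] at h4
          rw [gset_succ_of_eq h2, Finset.sum_insert (not_mem_gset _ _ _),
            Finset.sum_insert (not_mem_gset _ _ _), i1, i2, h4, H.deg k (by omega)]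
          refine ⟨h.1, ?_⟩
          rw [sq]
          exact h.2

lemma has1_sound (A g : ℕ) : ∀ k, has1 A g k = true → ∃ i < k, grd A i = g ∧ dgr A i = 1 := by
  intro k
  induction k with
  | zero => intro h; simp [has1] at h
  | succ k ih =>
    intro h
    rw [has1] at h
    cases h1 : (Nat.beq (grd A k) g && Nat.beq (dgr A k) 1)
    · rw [h1] at h
      simp only [cond_false] at h
      obtain ⟨i, hi, h2⟩ := ih h
      exact ⟨i, by omega, h2⟩
    · rw [Bool.and_eq_true, Nat.beq_eq, Nat.beq_eq] at h1
      exact ⟨k, by omega, h1⟩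

lemma Q_comm_left (a b c d : J) : F.Q a b c d = F.Q b a c d := by
  unfold FRS.Q
  have h : F.cons a b = F.cons b a := by
    ext x
    rw [F.mem_cons, F.mem_cons, F.swap12]
  rw [h]
  exact Finset.sum_congr rfl fun x _ => by rw [F.swap12 a b]

lemma Q_comm_right (a b c d : J) : F.Q a b c d = F.Q a b d c := by
  unfold FRS.Q
  exact Finset.sum_congr rfl fun x _ => by rw [F.swap23 x]

lemma normV_sound {s : St} {v : ℕ → J} (H : Ok F s v) {a b typ L V : ℕ} (ha : a < s.n)
    (hb : b < s.n) (h : normV s.n s.A s.T a b typ L = some (V + 1)) :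
    F.Q (v a) (v b) (F.st (v a)) (F.st (v b)) = V := by
  have hda := H.du a ha
  have hdb := H.du b hb
  unfold normV at h
  split at h
  · simp at h
  · cases h1 : sm s.n s.A s.T a (dus s.A a) b (dus s.A b) (dl 20 L) 0 with
    | none => rw [h1] at h; simp at h
    | some pq =>
      obtain ⟨p, q⟩ := pq
      rw [h1] at h
      simp only at h
      cases h2 : Nat.beq p (dgr s.A a * dgr s.A a)
      · rw [h2] at h; simp at h
      · rw [h2] at h
        rw [Nat.beq_eq] at h2
        simp only [cond_true, Option.some.injEq, Nat.add_right_cancel_iff] at h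
        obtain ⟨_, i2, i3, i4⟩ := sm_sound H ha hda.1 hb hdb.1 _ _ _ _ h1
        rw [hda.2, hdb.2] at i4
        rw [hda.2] at i3
        rw [F.Q_swap, F.Q_eq _ _ _ _ _ i2 (by rw [i3, h2, F.deg_st, H.deg a ha]), i4, h]
  · cases h1 : sm s.n s.A s.T a (dus s.A b) b (dus s.A a) (dl 20 L) 0 with
    | none => rw [h1] at h; simp at h
    | some pq =>
      obtain ⟨p, q⟩ := pq
      rw [h1] at h
      simp only at h
      cases h2 : Nat.beq p (dgr s.A a * dgr s.A b)
      · rw [h2] at h; simp at h
      · rw [h2] at h
        rw [Nat.beq_eq] at h2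
        simp only [cond_true, Option.some.injEq, Nat.add_right_cancel_iff] at h
        obtain ⟨_, i2, i3, i4⟩ := sm_sound H ha hdb.1 hb hda.1 _ _ _ _ h1
        rw [hda.2, hdb.2] at i4
        rw [hdb.2] at i3
        rw [Q_comm_right, F.Q_swap,
          F.Q_eq _ _ _ _ _ i2 (by rw [i3, h2, F.deg_st, H.deg a ha, H.deg b hb]), i4, h]
  · cases h1 : sm s.n s.A s.T b (dus s.A b) a (dus s.A a) (dl 20 L) 0 with
    | none => rw [h1] at h; simp at h
    | some pq =>
      obtain ⟨p, q⟩ := pq
      rw [h1] at h
      simp only at h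
      cases h2 : Nat.beq p (dgr s.A b * dgr s.A b)
      · rw [h2] at h; simp at h
      · rw [h2] at h
        rw [Nat.beq_eq] at h2
        simp only [cond_true, Option.some.injEq, Nat.add_right_cancel_iff] at h
        obtain ⟨_, i2, i3, i4⟩ := sm_sound H hb hdb.1 ha hda.1 _ _ _ _ h1
        rw [hda.2, hdb.2] at i4
        rw [hdb.2] at i3
        rw [Q_comm_left, Q_comm_right, F.Q_swap,
          F.Q_eq _ _ _ _ _ i2 (by rw [i3, h2, F.deg_st, H.deg b hb]), i4, h]

/-- the conditions on a new constituent `x` of `a b` that belong to the option `o` -/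
structure NewX (F : FRS J) (s : St) (v : ℕ → J) (a b g : ℕ) (o : ℕ × ℕ × ℕ) (x : J) : Prop where
  new : ∀ i < s.n, v i ≠ x
  deg : F.deg x = o.1
  T : F.T (v a) (v b) (F.st x) = o.2.1
  T0 : o.2.1 ≠ 0
  foc : ∀ y, F.T (v a) (v b) (F.st y) ≠ 0 →
    (∃ i < s.n, v i = y) ∨ F.deg y * 64 + F.T (v a) (v b) (F.st y) ≤ o.1 * 64 + o.2.1
  k0 : o.2.2 = 0 → g ≠ 16
  k1 : o.2.2 = 1 → g = 16 ∧ F.st x = x
  k2 : ∀ j, o.2.2 = j + 2 → g = 16 ∧ F.st x ≠ x ∧ F.T (v a) (v b) x = j

/-! ### enumeration of the options -/

lemma mem_optC (N : NP) (e m : ℕ) (rest : List (ℕ × ℕ × ℕ)) :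
    ∀ k, (∀ o ∈ rest, o ∈ optC N e m rest k) ∧
      ∀ j < k, feas2 N e m j = true → (e, m, j + 2) ∈ optC N e m rest k := by
  intro k
  induction k with
  | zero => exact ⟨fun o h => h, fun j hj => by omega⟩
  | succ k ih =>
    constructor
    · intro o ho
      rw [optC]
      cases feas2 N e m k
      · exact ih.1 o ho
      · exact List.mem_cons_of_mem _ (ih.1 o ho)
    · intro j hj hf
      rw [optC]
      rcases Nat.lt_succ_iff_lt_or_eq.1 hj with h | h
      · cases feas2 N e m k
        · exact ih.2 j h hf
        · exact List.mem_cons_of_mem _ (ih.2 j h hf)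
      · subst h
        rw [hf]
        exact List.mem_cons_self

lemma mem_optM (N : NP) (e : ℕ) (rest : List (ℕ × ℕ × ℕ)) :
    ∀ k, (∀ o ∈ rest, o ∈ optM N e rest k) ∧
      ∀ m, 0 < m → m ≤ k → feas N e m = true →
        (N.z = false → (e, m, 0) ∈ optM N e rest k) ∧
        (N.z = true → (e, m, 1) ∈ optM N e rest k ∧
          ∀ j ≤ m, feas2 N e m j = true → (e, m, j + 2) ∈ optM N e rest k) := by
  intro k
  induction k with
  | zero => exact ⟨fun o h => h, fun m h1 h2 => by omega⟩
  | succ k ih =>
    constructor
    · intro o ho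
      rw [optM]
      cases feas N e (k + 1)
      · exact ih.1 o ho
      · simp only [cond_true]
        cases N.z
        · exact List.mem_cons_of_mem _ (ih.1 o ho)
        · exact List.mem_cons_of_mem _ ((mem_optC N e (k + 1) _ _).1 _ (ih.1 o ho))
    · intro m h1 h2 hf
      rcases Nat.le_succ_iff.1 h2 with h | h
      · obtain ⟨i1, i2⟩ := ih.2 m h1 h hf
        constructor
        · intro hz
          rw [optM]
          cases feas N e (k + 1)
          · exact i1 hz
          · simp only [cond_true, hz, cond_false]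
            exact List.mem_cons_of_mem _ (i1 hz)
        · intro hz
          obtain ⟨i3, i4⟩ := i2 hz
          constructor
          · rw [optM]
            cases feas N e (k + 1)
            · exact i3
            · simp only [cond_true, hz]
              exact List.mem_cons_of_mem _ ((mem_optC N e (k + 1) _ _).1 _ i3)
          · intro j hj hf2
            rw [optM]
            cases feas N e (k + 1)
            · exact i4 j hj hf2
            · simp only [cond_true, hz]
              exact List.mem_cons_of_mem _ ((mem_optC N e (k + 1) _ _).1 _ (i4 j hj hf2))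
      · subst h
        constructor
        · intro hz
          rw [optM, hf]
          simp only [cond_true, hz, cond_false]
          exact List.mem_cons_self
        · intro hz
          constructor
          · rw [optM, hf]
            simp only [cond_true, hz]
            exact List.mem_cons_self
          · intro j hj hf2
            rw [optM, hf]
            simp only [cond_true, hz]
            exact List.mem_cons_of_mem _ ((mem_optC N e (k + 1) _ _).2 j (by omega) hf2)

lemma mem_optE (N : NP) : ∀ k e m, 0 < e → e ≤ k → 0 < m → m * e ≤ N.R → feas N e m = true →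
    (N.z = false → (e, m, 0) ∈ optE N k) ∧
    (N.z = true → (e, m, 1) ∈ optE N k ∧
      ∀ j ≤ m, feas2 N e m j = true → (e, m, j + 2) ∈ optE N k) := by
  intro k
  induction k with
  | zero => intro e m h1 h2; omega
  | succ k ih =>
    intro e m h1 h2 h3 h4 hf
    rcases Nat.le_succ_iff.1 h2 with h | h
    · obtain ⟨i1, i2⟩ := ih e m h1 h h3 h4 hf
      refine ⟨fun hz => ?_, fun hz => ⟨?_, fun j hj hf2 => ?_⟩⟩
      · rw [optE]
        exact (mem_optM N (k + 1) _ _).1 _ (i1 hz)
      · rw [optE]
        exact (mem_optM N (k + 1) _ _).1 _ (i2 hz).1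
      · rw [optE]
        exact (mem_optM N (k + 1) _ _).1 _ ((i2 hz).2 j hj hf2)
    · subst h
      have h5 : m ≤ N.R / (k + 1) := (Nat.le_div_iff_mul_le (by omega)).2 h4
      rw [optE]
      exact (mem_optM N (k + 1) _ _).2 m h3 h5 hf

end Pool.Agent.Helper77.Fusion
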