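import Pool.Agent.Helper77.Fusion.Sound2

/-!
Soundness of the certificate checker, part 3: adding a vertex.
-/

namespace Pool.Agent.Helper77.Fusion

open Finset

variable {J : Type*} {F : FRS J}

lemma ent_or (A n w j : ℕ) (hw : w < 1048576) :
    ent (A ||| (w <<< (20 * n))) j = if n = j then ent A j ||| w else ent A j := by
  have h := entry_or 20 A n j w (by norm_num; exact hw)
  norm_num at h
  exact h

lemma ld4_high (T n x y z : ℕ) (h : T >>> (4 * (n * n * n)) = 0) (hz : n ≤ z) :
    ld4 T (idx3 x y z) = 0 := by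
  unfold ld4 idx3
  have h1 : n * n * n ≤ z * z * z := Nat.mul_le_mul (Nat.mul_le_mul hz hz) hz
  obtain ⟨k, hk⟩ := Nat.exists_eq_add_of_le
    (show 4 * (n * n * n) ≤ 4 * (z * z * z + (y * y + x)) by omega)
  rw [hk, Nat.shiftRight_add, h]
  simp

/-- add a vertex -/
def ext1 (v : ℕ → J) (n : ℕ) (x : J) : ℕ → J := fun i => if i = n then x else v i

lemma Ok.real {n A T fa fb fc : ℕ} {v : ℕ → J} (H : Ok F ⟨n, A, T, fa, fb, fc⟩ v) {a b e m : ℕ}
    {x : J} (ha : a < n) (hb : b < n) (h1 : ent A n = 0)
    (h3 : T >>> (4 * (n * n * n)) = 0) (hn : n < 60) (he : e < 256)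
    (hx : ∀ i < n, v i ≠ x) (hgr : F.gr x = 0) (hst : F.st x = x) (hdeg : F.deg x = e)
    (hfoc : ∀ y, F.T (v a) (v b) (F.st y) ≠ 0 →
      (∃ i < n, v i = y) ∨ F.deg y * 64 + F.T (v a) (v b) (F.st y) ≤ e * 64 + m) :
    Ok F ⟨n + 1, A ||| ((16 + (64 * n + 4096 * e)) <<< (20 * n)), T, a, b, e * 64 + m⟩
      (ext1 v n x) := by
  have hold : ∀ i < n, ext1 v n x i = v i := fun i hi => by
    unfold ext1
    rw [if_neg (by omega)]
  have hnew : ext1 v n x n = x := by simp [ext1]
  have heo : ∀ i < n, ent (A ||| ((16 + (64 * n + 4096 * e)) <<< (20 * n))) i = ent A i := by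
    intro i hi
    rw [ent_or _ _ _ _ (by omega), if_neg (by omega)]
  have hen : ent (A ||| ((16 + (64 * n + 4096 * e)) <<< (20 * n))) n =
      16 + (64 * n + 4096 * e) := by
    rw [ent_or _ _ _ _ (by omega), if_pos rfl, h1, Nat.zero_or]
  refine ⟨?_, ?_, ?_, ?_, ?_, ?_, ?_, ?_, ?_⟩
  · intro i hi
    simp only at hi ⊢
    rcases Nat.lt_succ_iff_lt_or_eq.1 hi with h | rfl
    · rw [hold i h]
      unfold grd
      rw [heo i h]
      exact H.gr i h
    · rw [hnew, hgr]
      unfold grd
      rw [hen]
      norm_num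
      omega
  · intro i hi
    simp only at hi ⊢
    rcases Nat.lt_succ_iff_lt_or_eq.1 hi with h | rfl
    · rw [hold i h]
      unfold dgr
      rw [heo i h]
      exact H.deg i h
    · rw [hnew, hdeg]
      unfold dgr
      rw [hen]
      omega
  · intro i hi
    simp only at hi ⊢
    rcases Nat.lt_succ_iff_lt_or_eq.1 hi with h | rfl
    · have h5 : dus (A ||| ((16 + (64 * n + 4096 * e)) <<< (20 * n))) i = dus A i := by
        unfold dus
        rw [heo i h]
      have h6 := H.du i h
      simp only at h6
      rw [h5, hold i h, hold _ h6.1]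
      exact ⟨by omega, h6.2⟩
    · have h5 : dus (A ||| ((16 + (64 * i + 4096 * e)) <<< (20 * i))) i = i := by
        unfold dus
        rw [hen]
        omega
      rw [h5, hnew, hst]
      exact ⟨by omega, rfl⟩
  · intro i hi j hj hij
    simp only at hi hj
    rcases Nat.lt_succ_iff_lt_or_eq.1 hi with h | rfl
    · rcases Nat.lt_succ_iff_lt_or_eq.1 hj with h' | rfl
      · rw [hold i h, hold j h'] at hij
        exact H.inj i h j h' hij
      · rw [hold i h, hnew] at hij
        exact absurd hij (hx i h)
    · rcases Nat.lt_succ_iff_lt_or_eq.1 hj with h' | h'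
      · rw [hnew, hold j h'] at hij
        exact absurd hij.symm (hx j h')
      · exact h'.symm
  · intro p q r hpq hqr hr t ht
    simp only at hr ht
    rcases Nat.lt_succ_iff_lt_or_eq.1 hr with h | h
    · rw [hold r h, hold q (by omega), hold p (by omega)]
      exact H.tab p q r hpq hqr h t ht
    · rw [ld4_high T n p q r h3 (by omega)] at ht
      omega
  · have := H.pos
    simp only at this ⊢
    omega
  · have := H.pos
    simp only at this
    rw [hold 0 (by omega)]
    exact H.one
  · have := H.pos
    simp only at this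
    rw [hold 1 (by omega), hold 4 (by omega)]
    exact H.vc
  · intro y hy
    simp only at hy ⊢
    rw [hold a ha, hold b hb] at hy ⊢
    rcases hfoc y hy with ⟨i, hi, hiy⟩ | h
    · exact Or.inl ⟨i, by omega, by rw [hold i hi, hiy]⟩
    · exact Or.inr h

/-- add two vertices -/
def ext2 (v : ℕ → J) (n : ℕ) (x y : J) : ℕ → J :=
  fun i => if i = n then x else if i = n + 1 then y else v i

lemma Ok.pair {n A T fa fb fc : ℕ} {v : ℕ → J} (H : Ok F ⟨n, A, T, fa, fb, fc⟩ v)
    {a b g e m : ℕ} {x : J} (ha : a < n) (hb : b < n) (h1 : ent A n = 0)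
    (h2 : ent A (n + 1) = 0) (h3 : T >>> (4 * (n * n * n)) = 0) (hn : n < 60) (he : e < 256)
    (hg : g ≤ 32)
    (hx : ∀ i < n, v i ≠ x) (hgr : F.gr x + 16 = g) (hst : F.st x ≠ x) (hdeg : F.deg x = e)
    (hfoc : ∀ y, F.T (v a) (v b) (F.st y) ≠ 0 →
      (∃ i < n, v i = y) ∨ F.deg y * 64 + F.T (v a) (v b) (F.st y) ≤ e * 64 + m) :
    Ok F ⟨n + 2, A ||| ((g + (64 * (n + 1) + 4096 * e)) <<< (20 * n)) |||
      (((32 - g) + (64 * n + 4096 * e)) <<< (20 * (n + 1))), T, a, b, e * 64 + m⟩
      (ext2 v n x (F.st x)) := by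
  set A1 := A ||| ((g + (64 * (n + 1) + 4096 * e)) <<< (20 * n)) with hA1
  set A2 := A1 ||| (((32 - g) + (64 * n + 4096 * e)) <<< (20 * (n + 1))) with hA2
  have hold : ∀ i < n, ext2 v n x (F.st x) i = v i := fun i hi => by
    unfold ext2
    rw [if_neg (by omega), if_neg (by omega)]
  have hnew : ext2 v n x (F.st x) n = x := by simp [ext2]
  have hnew' : ext2 v n x (F.st x) (n + 1) = F.st x := by simp [ext2]
  have hx' : ∀ i < n, v i ≠ F.st x := by
    intro i hi h
    have h5 := H.du i hi
    simp only at h5
    rw [h, F.st_st] at h5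
    exact hx _ h5.1 h5.2
  have heo : ∀ i < n, ent A2 i = ent A i := by
    intro i hi
    rw [hA2, ent_or _ _ _ _ (by omega), if_neg (by omega), hA1, ent_or _ _ _ _ (by omega),
      if_neg (by omega)]
  have hen : ent A2 n = g + (64 * (n + 1) + 4096 * e) := by
    rw [hA2, ent_or _ _ _ _ (by omega), if_neg (by omega), hA1, ent_or _ _ _ _ (by omega),
      if_pos rfl, h1, Nat.zero_or]
  have hen' : ent A2 (n + 1) = (32 - g) + (64 * n + 4096 * e) := by
    rw [hA2, ent_or _ _ _ _ (by omega), if_pos rfl, hA1, ent_or _ _ _ _ (by omega),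
      if_neg (by omega), h2, Nat.zero_or]
  have h3c : ∀ i < n + 2, i < n ∨ i = n ∨ i = n + 1 := fun i hi => by omega
  refine ⟨?_, ?_, ?_, ?_, ?_, ?_, ?_, ?_, ?_⟩
  · intro i hi
    simp only at hi ⊢
    rcases h3c i hi with h | rfl | rfl
    · rw [hold i h]
      unfold grd
      rw [heo i h]
      exact H.gr i h
    · rw [hnew, hgr]
      unfold grd
      rw [hen]
      norm_num
      omega
    · rw [hnew', F.gr_st]
      unfold grd
      rw [hen']
      have : ((32 - g + (64 * n + 4096 * e)) % 64 : ℕ) = 32 - g := by omega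
      rw [this]
      omega
  · intro i hi
    simp only at hi ⊢
    rcases h3c i hi with h | rfl | rfl
    · rw [hold i h]
      unfold dgr
      rw [heo i h]
      exact H.deg i h
    · rw [hnew, hdeg]
      unfold dgr
      rw [hen]
      omega
    · rw [hnew', F.deg_st, hdeg]
      unfold dgr
      rw [hen']
      omega
  · intro i hi
    simp only at hi ⊢
    rcases h3c i hi with h | rfl | rfl
    · have h5 : dus A2 i = dus A i := by
        unfold dus
        rw [heo i h]
      have h6 := H.du i h
      simp only at h6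
      rw [h5, hold i h, hold _ h6.1]
      exact ⟨by omega, h6.2⟩
    · have h5 : dus A2 i = i + 1 := by
        unfold dus
        rw [hen]
        omega
      rw [h5, hnew, hnew']
      exact ⟨by omega, rfl⟩
    · have h5 : dus A2 (n + 1) = n := by
        unfold dus
        rw [hen']
        omega
      rw [h5, hnew, hnew', F.st_st]
      exact ⟨by omega, rfl⟩
  · intro i hi j hj hij
    simp only at hi hj
    rcases h3c i hi with h | h | h <;> rcases h3c j hj with h' | h' | h'
    · rw [hold i h, hold j h'] at hij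
      exact H.inj i h j h' hij
    · rw [hold i h, h', hnew] at hij
      exact absurd hij (hx i h)
    · rw [hold i h, h', hnew'] at hij
      exact absurd hij (hx' i h)
    · rw [hold j h', h, hnew] at hij
      exact absurd hij.symm (hx j h')
    · omega
    · rw [h, h', hnew, hnew'] at hij
      exact absurd hij.symm hst
    · rw [hold j h', h, hnew'] at hij
      exact absurd hij.symm (hx' j h')
    · rw [h, h', hnew, hnew'] at hij
      exact absurd hij hst
    · omega
  · intro p q r hpq hqr hr t ht
    simp only at hr ht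
    by_cases h : r < n
    · rw [hold r h, hold q (by omega), hold p (by omega)]
      exact H.tab p q r hpq hqr h t ht
    · rw [ld4_high T n p q r h3 (by omega)] at ht
      omega
  · have := H.pos
    simp only at this ⊢
    omega
  · have := H.pos
    simp only at this
    rw [hold 0 (by omega)]
    exact H.one
  · have := H.pos
    simp only at this
    rw [hold 1 (by omega), hold 4 (by omega)]
    exact H.vc
  · intro y hy
    simp only at hy ⊢
    rw [hold a ha, hold b hb] at hy ⊢
    rcases hfoc y hy with ⟨i, hi, hiy⟩ | h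
    · exact Or.inl ⟨i, by omega, by rw [hold i hi, hiy]⟩
    · exact Or.inr h

lemma child_sound {s : St} {v : ℕ → J} (H : Ok F s v) {a b g : ℕ} {o : ℕ × ℕ × ℕ} {x : J}
    {f : St → Bool} (ha : a < s.n) (hb : b < s.n) (hg : g + 16 = grd s.A a + grd s.A b)
    (hg' : g ≤ 32) (hX : NewX F s v a b g o x) (hc : child s a b g o f = true)
    (hf : ∀ s' v', f s' = true → Ok F s' v' → False) : False := by
  obtain ⟨n, A, T, fa, fb, fc⟩ := s
  obtain ⟨e, m, kind⟩ := o
  obtain ⟨hnew, hdeg, hT, hT0, hfoc, hk0, hk1, hk2⟩ := hX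
  simp only at ha hb hg hnew hdeg hT hT0 hfoc hk0 hk1 hk2
  -- the grade of x
  have hgr : F.gr x + 16 = g := by
    have h1 := F.gr_T (v a) (v b) (F.st x) (by rw [hT]; exact hT0)
    rw [F.gr_st] at h1
    have h2 := H.gr a ha
    have h3 := H.gr b hb
    simp only at h2 h3
    have h4 : (g : ℤ) + 16 = (grd A a : ℤ) + (grd A b : ℤ) := by exact_mod_cast hg
    omega
  unfold child at hc
  simp only at hc
  cases hcond : (Nat.beq (ent A n) 0 && Nat.beq (ent A (n + 1)) 0 &&
      Nat.beq (T >>> (4 * (n * n * n))) 0 && Nat.blt n 60 && Nat.blt e 256)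
  · rw [hcond] at hc
    simp at hc
  · rw [hcond] at hc
    simp only [cond_true] at hc
    rw [Bool.and_eq_true, Bool.and_eq_true, Bool.and_eq_true, Bool.and_eq_true, Nat.beq_eq,
      Nat.beq_eq, Nat.beq_eq, Nat.blt_eq, Nat.blt_eq] at hcond
    obtain ⟨⟨⟨⟨h1, h2⟩, h3⟩, hn⟩, he⟩ := hcond
    match kind, hk0, hk1, hk2, hc with
    | 0, hk0, _, _, hc =>
      simp only at hc
      rw [force_eq] at hc
      have hgne := hk0 rfl
      have hst : F.st x ≠ x := by
        intro h
        have h5 := F.gr_st x
        rw [h] at h5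
        omega
      have HO := H.pair (g := g) (e := e) (m := m) ha hb h1 h2 h3 hn he hg' hnew hgr hst hdeg hfoc
      refine withT_sound HO (a := a) (b := b) (c := n + 1) (t := m) ?_ ?_ ?_ ?_ hc
        (fun s' hs' hO _ => hf s' _ hs' hO)
      · simp only; omega
      · simp only; omega
      · simp only; omega
      · unfold ext2
        rw [if_neg (by omega), if_neg (by omega), if_neg (by omega), if_neg (by omega),
          if_neg (by omega), if_pos rfl]
        exact hT
    | 1, _, hk1, _, hc =>
      simp only at hc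
      rw [force_eq] at hc
      obtain ⟨hg16, hst⟩ := hk1 rfl
      subst hg16
      have HO := H.real (e := e) (m := m) ha hb h1 h3 hn he hnew (by push_cast at hgr; omega) hst
        hdeg hfoc
      refine withT_sound HO (a := a) (b := b) (c := n) (t := m) ?_ ?_ ?_ ?_ hc
        (fun s' hs' hO _ => hf s' _ hs' hO)
      · simp only; omega
      · simp only; omega
      · simp only; omega
      · unfold ext1
        rw [if_neg (by omega), if_neg (by omega), if_pos rfl]
        rw [hst] at hT
        exact hT
    | j + 2, _, _, hk2, hc =>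
      simp only at hc
      rw [force_eq] at hc
      obtain ⟨hg16, hst, hj⟩ := hk2 j rfl
      subst hg16
      have HO := H.pair (g := 16) (e := e) (m := m) ha hb h1 h2 h3 hn he (by norm_num) hnew hgr
        hst hdeg hfoc
      norm_num at HO
      refine withT_sound HO (a := a) (b := b) (c := n + 1) (t := m) ?_ ?_ ?_ ?_ hc ?_
      · simp only; omega
      · simp only; omega
      · simp only; omega
      · unfold ext2
        rw [if_neg (by omega), if_neg (by omega), if_neg (by omega), if_neg (by omega),
          if_neg (by omega), if_pos rfl]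
        exact hT
      · intro s' hs' hO hsn
        simp only at hsn
        refine withT_sound hO (a := a) (b := b) (c := n) (t := j) ?_ ?_ ?_ ?_ hs'
          (fun s'' hs'' hO' _ => hf s'' _ hs'' hO')
        · omega
        · omega
        · omega
        · unfold ext2
          rw [if_neg (by omega), if_neg (by omega), if_neg (by omega), if_neg (by omega),
            if_pos rfl]
          exact hj

end Pool.Agent.Helper77.Fusion
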