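import Pool.Agent.Helper77.Fusion.Sound3

/-!
Soundness of the certificate checker, part 4: the enumeration of the options is complete.
-/

namespace Pool.Agent.Helper77.Fusion

open Finset

variable {J : Type*} {F : FRS J}

lemma split_sum [DecidableEq J] {s : St} {v : ℕ → J} (H : Ok F s v) (a b : J) (g : ℕ)
    (f : J → ℕ) (hf : ∀ x, x ∉ F.cons a b → f x = 0) :
    ∑ x ∈ F.cons a b, f x = ∑ i ∈ gset s.A g s.n, f (v i) +
      ∑ x ∈ F.cons a b \ (gset s.A g s.n).image v, f x := by
  have hinj : Set.InjOn v (gset s.A g s.n : Set ℕ) := by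
    intro i hi j hj hij
    have hi' := Finset.mem_filter.1 (Finset.mem_coe.1 hi)
    have hj' := Finset.mem_filter.1 (Finset.mem_coe.1 hj)
    exact H.inj i (Finset.mem_range.1 hi'.1) j (Finset.mem_range.1 hj'.1) hij
  have h1 : ∑ i ∈ gset s.A g s.n, f (v i) = ∑ x ∈ (gset s.A g s.n).image v, f x :=
    (Finset.sum_image hinj).symm
  rw [h1]
  have h2 : ∑ x ∈ (gset s.A g s.n).image v, f x =
      ∑ x ∈ F.cons a b ∩ (gset s.A g s.n).image v, f x := by
    symm
    apply Finset.sum_subset Finset.inter_subset_right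
    intro x hx hx'
    apply hf
    intro h
    exact hx' (Finset.mem_inter.2 ⟨h, hx⟩)
  rw [h2]
  exact (Finset.sum_inter_add_sum_sdiff _ _ _).symm

/-- what is known about a constituent of `a b` outside the known vertices with maximal code -/
structure MaxX (F : FRS J) (s : St) (v : ℕ → J) (a b R : ℕ) (x : J) : Prop where
  new : ∀ i < s.n, v i ≠ x
  T0 : 0 < F.T (v a) (v b) (F.st x)
  max : ∀ y, F.T (v a) (v b) (F.st y) ≠ 0 → (∀ i < s.n, v i ≠ y) →
    F.deg y * 64 + F.T (v a) (v b) (F.st y) ≤ F.deg x * 64 + F.T (v a) (v b) (F.st x)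
  R1 : F.T (v a) (v b) (F.st x) * F.deg x ≤ R
  R2 : F.st x ≠ x → (F.T (v a) (v b) (F.st x) + F.T (v a) (v b) x) * F.deg x ≤ R

lemma exists_max {s : St} {v : ℕ → J} (H : Ok F s v) {a b g p q : ℕ}
    (ha : a < s.n) (hb : b < s.n) (hg : g + 16 = grd s.A a + grd s.A b)
    (hs : scan s.A s.T a b g s.n = some (p, q))
    (hp : p < dgr s.A a * dgr s.A b) (hp2 : dgr s.A a * dgr s.A b - p < 192) :
    ∃ x, MaxX F s v a b (dgr s.A a * dgr s.A b - p) x ∧
      (∀ V, F.Q (v a) (v b) (F.st (v a)) (F.st (v b)) = V → q ≤ V ∧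
        F.T (v a) (v b) (F.st x) ^ 2 ≤ V - q ∧
        (F.st x ≠ x → F.T (v a) (v b) (F.st x) ^ 2 + F.T (v a) (v b) x ^ 2 ≤ V - q) ∧
        dgr s.A a * dgr s.A b - p ≤ F.deg x * (V - q)) := by
  classical
  obtain ⟨hs1, hs2⟩ := scan_sound H ha hb s.n le_rfl p q hs
  have hda := H.deg a ha
  have hdb := H.deg b hb
  set X := F.cons (v a) (v b) \ (gset s.A g s.n).image v with hX
  set R := dgr s.A a * dgr s.A b - p with hR
  have hXmem : ∀ y, y ∈ X ↔ F.T (v a) (v b) (F.st y) ≠ 0 ∧ ∀ i < s.n, v i ≠ y := by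
    intro y
    rw [hX, Finset.mem_sdiff, F.mem_cons]
    constructor
    · rintro ⟨h1, h2⟩
      refine ⟨h1, fun i hi hiy => h2 ?_⟩
      rw [Finset.mem_image]
      refine ⟨i, ?_, hiy⟩
      unfold gset
      rw [Finset.mem_filter, Finset.mem_range]
      refine ⟨hi, ?_⟩
      have h3 := F.gr_T _ _ _ h1
      rw [F.gr_st, ← hiy] at h3
      have h4 := H.gr a ha
      have h5 := H.gr b hb
      have h6 := H.gr i hi
      have h7 : (g : ℤ) + 16 = (grd s.A a : ℤ) + (grd s.A b : ℤ) := by exact_mod_cast hg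
      omega
    · rintro ⟨h1, h2⟩
      refine ⟨h1, fun h3 => ?_⟩
      rw [Finset.mem_image] at h3
      obtain ⟨i, hi, hiy⟩ := h3
      exact h2 i (Finset.mem_range.1 (Finset.mem_filter.1 hi).1) hiy
  have hstX : ∀ y, (∀ i < s.n, v i ≠ y) → ∀ i < s.n, v i ≠ F.st y := by
    intro y hy i hi h
    have h5 := H.du i hi
    rw [h, F.st_st] at h5
    exact hy _ h5.1 h5.2
  have hsum1 : ∑ y ∈ X, F.T (v a) (v b) (F.st y) * F.deg y = R := by
    have h1 := split_sum H (v a) (v b) g (fun y => F.T (v a) (v b) (F.st y) * F.deg y)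
      (fun y hy => by simp only [F.T_eq_zero hy, zero_mul])
    rw [F.deg_mul, hs1, hda, hdb, ← hX] at h1
    omega
  have hXne : X.Nonempty := by
    rw [Finset.nonempty_iff_ne_empty]
    intro h
    rw [h, Finset.sum_empty] at hsum1
    omega
  obtain ⟨x, hxX, hxmax⟩ := Finset.exists_max_image X
    (fun y => F.deg y * 64 + F.T (v a) (v b) (F.st y)) hXne
  obtain ⟨hx0, hxnew⟩ := (hXmem x).1 hxX
  have hle1 : ∀ y ∈ X, F.T (v a) (v b) (F.st y) * F.deg y ≤ R := by
    intro y hy
    rw [← hsum1]
    exact Finset.single_le_sum (f := fun y => F.T (v a) (v b) (F.st y) * F.deg y)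
      (fun _ _ => Nat.zero_le _) hy
  have hpair : F.st x ≠ x → F.T (v a) (v b) x ≠ 0 → F.st x ∈ X := by
    intro h1 h2
    rw [hXmem, F.st_st]
    exact ⟨h2, hstX x hxnew⟩
  have hT63 : F.T (v a) (v b) (F.st x) ≤ 63 := by
    have h1 := hle1 x hxX
    have h2 := F.deg_pos x
    have h3 := F.deg_ne_two x
    by_cases h4 : F.deg x = 1
    · have h5 := F.deg_le' (v a) (v b) (F.st x)
      have h6 := F.deg_le'' (v a) (v b) (F.st x)
      rw [F.deg_st, h4, one_mul] at h5 h6
      have h7 := F.deg_pos (v a)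
      have h8 := F.deg_pos (v b)
      by_contra h9
      push Not at h9
      nlinarith
    · have h5 : 3 ≤ F.deg x := by omega
      have h6 : F.T (v a) (v b) (F.st x) * 3 ≤ R :=
        le_trans (Nat.mul_le_mul_left _ h5) h1
      omega
  have hmax : ∀ y ∈ X, F.deg y ≤ F.deg x := by
    intro y hy
    have h1 := hxmax y hy
    have h2 := ((hXmem y).1 hy).1
    omega
  refine ⟨x, ⟨hxnew, Nat.pos_of_ne_zero hx0, ?_, hle1 x hxX, ?_⟩, ?_⟩
  · intro y hy1 hy2
    exact hxmax y ((hXmem y).2 ⟨hy1, hy2⟩)
  · intro hst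
    by_cases h0 : F.T (v a) (v b) x = 0
    · rw [h0, add_zero]
      exact hle1 x hxX
    · have h1 := hpair hst h0
      rw [← hsum1]
      have h2 : ({x, F.st x} : Finset J) ⊆ X := by
        intro y hy
        rw [Finset.mem_insert, Finset.mem_singleton] at hy
        rcases hy with rfl | rfl
        · exact hxX
        · exact h1
      calc (F.T (v a) (v b) (F.st x) + F.T (v a) (v b) x) * F.deg x
          = ∑ y ∈ ({x, F.st x} : Finset J), F.T (v a) (v b) (F.st y) * F.deg y := by
            rw [Finset.sum_pair (Ne.symm hst), F.st_st, F.deg_st]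
            ring
        _ ≤ ∑ y ∈ X, F.T (v a) (v b) (F.st y) * F.deg y :=
            Finset.sum_le_sum_of_subset h2
  · intro V hV
    have hsum2 : ∑ y ∈ X, F.T (v a) (v b) (F.st y) ^ 2 + q = V := by
      have h1 := split_sum H (v a) (v b) g (fun y => F.T (v a) (v b) (F.st y) ^ 2)
        (fun y hy => by simp only [F.T_eq_zero hy, ne_eq, OfNat.ofNat_ne_zero,
          not_false_eq_true, zero_pow])
      rw [← F.Q_norm, hV, hs2, ← hX] at h1
      omega
    have hq : ∑ y ∈ X, F.T (v a) (v b) (F.st y) ^ 2 = V - q := by omega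
    refine ⟨by omega, ?_, ?_, ?_⟩
    · rw [← hq]
      exact Finset.single_le_sum (f := fun y => F.T (v a) (v b) (F.st y) ^ 2)
        (fun _ _ => Nat.zero_le _) hxX
    · intro hst
      by_cases h0 : F.T (v a) (v b) x = 0
      · rw [h0, ← hq]
        simp only [ne_eq, OfNat.ofNat_ne_zero, not_false_eq_true, zero_pow, add_zero]
        exact Finset.single_le_sum (f := fun y => F.T (v a) (v b) (F.st y) ^ 2)
          (fun _ _ => Nat.zero_le _) hxX
      · have h1 := hpair hst h0
        have h2 : ({x, F.st x} : Finset J) ⊆ X := by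
          intro y hy
          rw [Finset.mem_insert, Finset.mem_singleton] at hy
          rcases hy with rfl | rfl
          · exact hxX
          · exact h1
        rw [← hq]
        calc F.T (v a) (v b) (F.st x) ^ 2 + F.T (v a) (v b) x ^ 2
            = ∑ y ∈ ({x, F.st x} : Finset J), F.T (v a) (v b) (F.st y) ^ 2 := by
              rw [Finset.sum_pair (Ne.symm hst), F.st_st]
          _ ≤ ∑ y ∈ X, F.T (v a) (v b) (F.st y) ^ 2 :=
              Finset.sum_le_sum_of_subset h2
    · rw [← hsum1, ← hq, Finset.mul_sum]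
      apply Finset.sum_le_sum
      intro y hy
      have h1 := hmax y hy
      have h2 : F.T (v a) (v b) (F.st y) ≤ F.T (v a) (v b) (F.st y) ^ 2 :=
        Nat.le_self_pow (by norm_num) _
      calc F.T (v a) (v b) (F.st y) * F.deg y ≤ F.T (v a) (v b) (F.st y) ^ 2 * F.deg x :=
            Nat.mul_le_mul h2 h1
        _ = F.deg x * F.T (v a) (v b) (F.st y) ^ 2 := by ring

lemma opts_sound {s : St} {v : ℕ → J} (H : Ok F s v) {a b g typ L : ℕ}
    (ha : a < s.n) (hb : b < s.n) (hg : g + 16 = grd s.A a + grd s.A b)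
    {os : List (ℕ × ℕ × ℕ)}
    (ho : opts s.n s.A s.T s.fa s.fb s.fc a b typ L g = some os) :
    ∃ o ∈ os, ∃ x, NewX F s v a b g o x := by
  have hda := H.deg a ha
  have hdb := H.deg b hb
  unfold opts at ho
  cases hs : scan s.A s.T a b g s.n with
  | none => rw [hs] at ho; simp at ho
  | some pq =>
  obtain ⟨p, q⟩ := pq
  rw [hs] at ho
  simp only at ho
  cases hN : normV s.n s.A s.T a b (typ % 4) L with
  | none => rw [hN] at ho; simp at ho
  | some V1 =>
  rw [hN] at ho
  simp only at ho
  cases hR : (Nat.blt p (dgr s.A a * dgr s.A b) && Nat.blt (dgr s.A a * dgr s.A b - p) 192)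
  · rw [hR] at ho; simp at ho
  rw [hR] at ho
  rw [Bool.and_eq_true, Nat.blt_eq, Nat.blt_eq] at hR
  simp only [cond_true] at ho
  obtain ⟨x, hx, hV⟩ := exists_max H ha hb hg hs hR.1 hR.2
  set R := dgr s.A a * dgr s.A b - p with hRdef
  set e := F.deg x with he
  set m := F.T (v a) (v b) (F.st x) with hm
  have he0 : 0 < e := F.deg_pos x
  have he2 : e ≠ 2 := F.deg_ne_two x
  have hm0 : 0 < m := hx.T0
  have heR : e ≤ R := le_trans (Nat.le_mul_of_pos_left _ hm0) hx.R1
  have hmR : m ≤ R := le_trans (Nat.le_mul_of_pos_right _ he0) hx.R1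
  have hb1 : m * dgr s.A a ≤ e * dgr s.A b := by
    have := F.deg_le' (v a) (v b) (F.st x)
    rwa [F.deg_st, hda, hdb] at this
  have hb2 : m * dgr s.A b ≤ e * dgr s.A a := by
    have := F.deg_le'' (v a) (v b) (F.st x)
    rwa [F.deg_st, hda, hdb] at this
  -- degree one
  have hno1 : e = 1 → (has1 s.A g s.n || isVC a b) = false := by
    intro he1
    rw [Bool.or_eq_false_iff]
    constructor
    · cases h1 : has1 s.A g s.n
      · rfl
      · obtain ⟨i, hi, h2, h3⟩ := has1_sound _ _ _ h1
        exfalso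
        apply hx.new i hi
        apply F.deg_one
        · rw [H.deg i hi, h3]
        · exact he1
        · have h4 := F.gr_T _ _ _ (Nat.pos_iff_ne_zero.1 hm0)
          rw [F.gr_st] at h4
          have h5 := H.gr a ha
          have h6 := H.gr b hb
          have h7 := H.gr i hi
          have h8 : (g : ℤ) + 16 = (grd s.A a : ℤ) + (grd s.A b : ℤ) := by exact_mod_cast hg
          omega
    · cases h1 : isVC a b
      · rfl
      · exfalso
        unfold isVC at h1
        rw [Bool.or_eq_true, Bool.and_eq_true, Bool.and_eq_true, Nat.beq_eq, Nat.beq_eq,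
          Nat.beq_eq, Nat.beq_eq] at h1
        have h2 := H.vc (F.st x) (by rw [F.deg_st]; exact he1)
        rcases h1 with ⟨rfl, rfl⟩ | ⟨rfl, rfl⟩
        · omega
        · rw [F.swap12] at h2
          omega
  -- the cap
  have hcapx : ∀ cap, (bif Nat.ble 4 typ then
      (bif Nat.beq s.fa a && Nat.beq s.fb b then some s.fc else none) else some 1000000) =
        some cap → e * 64 + m ≤ cap := by
    intro cap hc
    cases h4 : Nat.ble 4 typ
    · rw [h4] at hc
      simp only [cond_false, Option.some.injEq] at hc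
      omega
    · rw [h4] at hc
      simp only [cond_true] at hc
      cases h5 : (Nat.beq s.fa a && Nat.beq s.fb b)
      · rw [h5] at hc; simp at hc
      · rw [h5] at hc
        rw [Bool.and_eq_true, Nat.beq_eq, Nat.beq_eq] at h5
        simp only [cond_true, Option.some.injEq] at hc
        have h6 := H.foc x (by rw [h5.1, h5.2]; omega)
        rw [h5.1, h5.2, hc] at h6
        rcases h6 with ⟨i, hi, h7⟩ | h6
        · exact absurd h7 (hx.new i hi)
        · exact h6
  cases hcap : (bif Nat.ble 4 typ then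
      (bif Nat.beq s.fa a && Nat.beq s.fb b then some s.fc else none) else some 1000000) with
  | none => rw [hcap] at ho; simp at ho
  | some cap =>
  rw [hcap] at ho
  simp only at ho
  have hcap' := hcapx cap hcap
  -- the focus condition
  have hfoc : ∀ y, F.T (v a) (v b) (F.st y) ≠ 0 →
      (∃ i < s.n, v i = y) ∨ F.deg y * 64 + F.T (v a) (v b) (F.st y) ≤ e * 64 + m := by
    intro y hy
    by_cases h : ∃ i < s.n, v i = y
    · exact Or.inl h
    · push Not at h
      exact Or.inr (hx.max y hy h)
  -- from an enumeration to the conclusion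
  have key : ∀ N : NP, N.R = R → N.da = dgr s.A a → N.db = dgr s.A b → N.cap = cap →
      N.no1 = (has1 s.A g s.n || isVC a b) → N.z = Nat.beq g 16 →
      (match N.q with | 0 => true | Q + 1 => Nat.ble (m * m) Q && Nat.ble N.R (e * Q)) = true →
      (F.st x ≠ x → (match N.q with
        | 0 => true
        | Q + 1 => Nat.ble (m * m + F.T (v a) (v b) x * F.T (v a) (v b) x) Q) = true) →
      os = optE N R → ∃ o ∈ os, ∃ x, NewX F s v a b g o x := by
    intro N h1 h2 h3 h4 h5 h6 h7 h8 h9
    have hf : feas N e m = true := by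
      unfold feas
      rw [Bool.and_eq_true, Bool.and_eq_true, Bool.and_eq_true, Bool.and_eq_true,
        Bool.and_eq_true, Nat.ble_eq, Nat.ble_eq, Nat.ble_eq, h2, h3, h4]
      refine ⟨⟨⟨⟨⟨hb1, hb2⟩, hcap'⟩, h7⟩, ?_⟩, ?_⟩
      · cases h : Nat.beq e 2
        · rfl
        · rw [Nat.beq_eq] at h
          exact absurd h he2
      · cases h : Nat.beq e 1
        · rfl
        · rw [Nat.beq_eq] at h
          rw [h5, hno1 h]
          rfl
    have hmem := mem_optE N R e m he0 heR hm0 (by rw [h1]; exact hx.R1) hf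
    rw [h9]
    cases hz : N.z
    · have hg16 : g ≠ 16 := by
        intro h
        rw [h6, h] at hz
        simp at hz
      refine ⟨(e, m, 0), hmem.1 hz, x, ?_⟩
      exact ⟨hx.new, rfl, rfl, by simp only; omega, hfoc, fun _ => hg16,
        fun h => by simp only at h; omega, fun j h => by simp only at h; omega⟩
    · have hg16 : g = 16 := by
        rw [h6, Nat.beq_eq] at hz
        exact hz
      obtain ⟨i1, i2⟩ := hmem.2 hz
      by_cases hst : F.st x = x
      · refine ⟨(e, m, 1), i1, x, ?_⟩
        exact ⟨hx.new, rfl, rfl, by simp only; omega, hfoc, fun h => by simp only at h; omega,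
          fun _ => ⟨hg16, hst⟩, fun j h => by simp only at h; omega⟩
      · have hj : F.T (v a) (v b) x ≤ m := by
          by_cases h0 : F.T (v a) (v b) x = 0
          · omega
          · have h10 := hx.max (F.st x) (by rw [F.st_st]; exact h0) (by
              intro i hi h
              have h11 := H.du i hi
              rw [h, F.st_st] at h11
              exact hx.new _ h11.1 h11.2)
            rw [F.st_st, F.deg_st] at h10
            omega
        have hf2 : feas2 N e m (F.T (v a) (v b) x) = true := by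
          unfold feas2
          rw [Bool.and_eq_true, Nat.ble_eq, h1]
          exact ⟨hx.R2 hst, h8 hst⟩
        refine ⟨(e, m, F.T (v a) (v b) x + 2), i2 _ hj hf2, x, ?_⟩
        exact ⟨hx.new, rfl, rfl, by simp only; omega, hfoc, fun h => by simp only at h; omega,
          fun h => by simp only at h; omega, fun j h => by
            simp only at h
            exact ⟨hg16, hst, by omega⟩⟩
  cases V1 with
  | zero =>
    simp only at ho
    rw [force_eq] at ho
    simp only [Option.some.injEq] at ho
    exact key ⟨R, 0, dgr s.A a, dgr s.A b, cap, has1 s.A g s.n || isVC a b, Nat.beq g 16⟩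
      rfl rfl rfl rfl rfl rfl rfl (fun _ => rfl) ho.symm
  | succ V =>
    have hQ := normV_sound H ha hb hN
    obtain ⟨hq1, hq2, hq3, hq4⟩ := hV V hQ
    simp only at ho
    cases hVq : Nat.blt V q
    · rw [hVq] at ho
      simp only [cond_false] at ho
      rw [force_eq, force_eq] at ho
      simp only [Option.some.injEq] at ho
      have hsub : V + 1 - q = (V - q) + 1 := by omega
      rw [hsub] at ho
      refine key ⟨R, (V - q) + 1, dgr s.A a, dgr s.A b, cap, has1 s.A g s.n || isVC a b,
        Nat.beq g 16⟩ rfl rfl rfl rfl rfl rfl ?_ ?_ ho.symm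
      · simp only
        rw [Bool.and_eq_true, Nat.ble_eq, Nat.ble_eq]
        exact ⟨by rw [← sq]; exact hq2, hq4⟩
      · intro hst
        simp only
        rw [Nat.ble_eq, ← sq, ← sq]
        exact hq3 hst
    · rw [Nat.blt_eq] at hVq
      omega

end Pool.Agent.Helper77.Fusion
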