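import Pool.Agent.Helper77.Fusion.Sound4

/-!
Soundness of the certificate checker, part 5: the main induction.
-/

namespace Pool.Agent.Helper77.Fusion

open Finset

variable {J : Type*} (F : FRS J)

/-- soundness for a certificate -/
structure Snd (c : Cert) : Prop where
  plain : ∀ s v, Ok F s v → check c .plain s = true → False
  bch : ∀ s v a b c' t hi, Ok F s v → a < s.n → b < s.n → c' < s.n →
    check c (.bch a b c' t hi) s = true → t ≤ F.T (v a) (v b) (v c') →
    F.T (v a) (v b) (v c') ≤ hi → False
  nch : ∀ s v a b g os, Ok F s v → a < s.n → b < s.n →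
    g + 16 = grd s.A a + grd s.A b → g ≤ 32 → check c (.nch a b g os) s = true →
    ∀ o ∈ os, ∀ x, NewX F s v a b g o x → False

lemma snd_done : Snd F .done := by
  refine ⟨?_, ?_, ?_⟩
  · intro s v _ h
    simp [check] at h
  · intro s v a b c' t hi _ _ _ _ h h1 h2
    simp only [check, Nat.blt_eq] at h
    omega
  · intro s v a b g os _ _ _ _ _ h o ho
    cases os with
    | nil => simp at ho
    | cons o' os => simp [check] at h

lemma snd_br {c k : Cert} (hc : Snd F c) (hk : Snd F k) : Snd F (.br c k) := by
  refine ⟨?_, ?_, ?_⟩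
  · intro s v _ h
    simp [check] at h
  · intro s v a b c' t hi H ha hb hc' h h1 h2
    rw [check] at h
    simp only [Bool.and_eq_true] at h
    rcases Nat.eq_or_lt_of_le h1 with h3 | h3
    · exact withT_sound H ha hb hc' h3.symm h.1 (fun s' hs' hO _ => hc.plain s' v hO hs')
    · exact hk.bch s v a b c' (t + 1) hi H ha hb hc' h.2 h3 h2
  · intro s v a b g os H ha hb hg hg' h o ho x hx
    cases os with
    | nil => simp at ho
    | cons o' os =>
      rw [check] at h
      simp only [Bool.and_eq_true] at h
      rcases List.mem_cons.1 ho with rfl | ho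
      · exact child_sound H ha hb hg hg' hx h.1 (fun s' v' hs' hO => hc.plain s' v' hO hs')
      · exact hk.nch s v a b g os H ha hb hg hg' h.2 o ho x hx

lemma snd_un (a b : ℕ) {k : Cert} (hk : Snd F k) : Snd F (.un a b k) := by
  refine ⟨?_, ?_, ?_⟩
  · intro s v H h
    obtain ⟨n, A, T, fa, fb, fc⟩ := s
    rw [check] at h
    simp only [Bool.and_eq_true, Nat.blt_eq] at h
    obtain ⟨⟨ha, hb⟩, h⟩ := h
    have hp := H.pos
    simp only at hp
    refine withT_sound H (by simp only; omega) ha hb ?_ h
      (fun s' hs' hO _ => hk.plain s' v hO hs')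
    have hda := H.du a ha
    simp only at hda
    rw [H.one]
    cases h1 : Nat.beq (dus A a) b
    · simp only [cond_false]
      apply F.one_mul_T_ne
      intro h2
      rw [← hda.2] at h2
      have h3 := H.inj b hb _ hda.1 h2
      rw [h3] at h1
      simp at h1
    · simp only [cond_true]
      rw [Nat.beq_eq] at h1
      apply F.one_mul_T_eq
      rw [← hda.2, h1]
  · intro s v a b c' t hi _ _ _ _ h
    simp [check] at h
  · intro s v a b g os _ _ _ _ _ h
    simp [check] at h

lemma snd_dz (a b c S : ℕ) {k : Cert} (hk : Snd F k) : Snd F (.dz a b c S k) := by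
  refine ⟨?_, ?_, ?_⟩
  · intro s v H h
    obtain ⟨n, A, T, fa, fb, fc⟩ := s
    rw [check] at h
    simp only [Bool.and_eq_true, Nat.blt_eq] at h
    obtain ⟨⟨⟨⟨ha, hb⟩, hc⟩, hn⟩, h⟩ := h
    cases h1 : sdl n A T a b (dl 20 S) 0 with
    | none => rw [h1] at h; simp at h
    | some p =>
      rw [h1] at h
      simp only [Bool.and_eq_true, Nat.blt_eq] at h
      obtain ⟨h2, h3⟩ := h
      obtain ⟨i1, i2, i3⟩ := sdl_sound H ha hb _ _ _ h1
      refine withT_sound H ha hb hc ?_ h3 (fun s' hs' hO _ => hk.plain s' v hO hs')
      have hdc := H.du c hc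
      simp only at hdc i1 i3
      have h4 := F.deg_bound (v a) (v b) (v c) _ i2 (by
        intro hm
        obtain ⟨y, hy, hyc⟩ := List.mem_map.1 hm
        rw [← hdc.2] at hyc
        have := H.inj y (i1 y hy).2 _ hdc.1 hyc
        rw [this] at hy
        exact nin_sound _ _ hn hy)
      rw [i3, H.deg a ha, H.deg b hb, H.deg c hc] at h4
      simp only at h4
      by_contra h5
      have h6 : dgr A c ≤ F.T (v a) (v b) (v c) * dgr A c :=
        Nat.le_mul_of_pos_left _ (Nat.pos_of_ne_zero h5)
      omega
  · intro s v a b c' t hi _ _ _ _ h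
    simp [check] at h
  · intro s v a b g os _ _ _ _ _ h
    simp [check] at h

lemma snd_bn (a b c S : ℕ) {k : Cert} (hk : Snd F k) : Snd F (.bn a b c S k) := by
  refine ⟨?_, ?_, ?_⟩
  · intro s v H h
    obtain ⟨n, A, T, fa, fb, fc⟩ := s
    rw [check] at h
    simp only [Bool.and_eq_true, Nat.blt_eq] at h
    obtain ⟨⟨⟨⟨ha, hb⟩, hc⟩, hn⟩, h⟩ := h
    cases h1 : sdl n A T a b (dl 20 S) 0 with
    | none => rw [h1] at h; simp at h
    | some p =>
      rw [h1] at h
      simp only at h
      rw [force_eq] at h
      obtain ⟨i1, i2, i3⟩ := sdl_sound H ha hb _ _ _ h1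
      have hdc := H.du c hc
      simp only at hdc i1 i3
      have h4 := F.deg_bound (v a) (v b) (v c) _ i2 (by
        intro hm
        obtain ⟨y, hy, hyc⟩ := List.mem_map.1 hm
        rw [← hdc.2] at hyc
        have := H.inj y (i1 y hy).2 _ hdc.1 hyc
        rw [this] at hy
        exact nin_sound _ _ hn hy)
      have h0 := F.deg_pos (v c)
      rw [i3, H.deg a ha, H.deg b hb, H.deg c hc] at h4
      rw [H.deg c hc] at h0
      simp only at h4 h0
      refine hk.bch _ v a b c 0 _ H ha hb hc h (Nat.zero_le _) ?_
      rw [Nat.le_div_iff_mul_le h0]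
      omega
  · intro s v a b c' t hi _ _ _ _ h
    simp [check] at h
  · intro s v a b g os _ _ _ _ _ h
    simp [check] at h

lemma snd_ld (a b S : ℕ) : Snd F (.ld a b S) := by
  refine ⟨?_, ?_, ?_⟩
  · intro s v H h
    obtain ⟨n, A, T, fa, fb, fc⟩ := s
    rw [check] at h
    simp only [Bool.and_eq_true, Nat.blt_eq] at h
    obtain ⟨⟨ha, hb⟩, h⟩ := h
    cases h1 : sdl n A T a b (dl 20 S) 0 with
    | none => rw [h1] at h; simp at h
    | some p =>
      rw [h1] at h
      simp only [Nat.blt_eq] at h
      obtain ⟨i1, i2, i3⟩ := sdl_sound H ha hb _ _ _ h1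
      have h4 := F.deg_list_le (v a) (v b) _ i2
      rw [i3, H.deg a ha, H.deg b hb] at h4
      simp only at h4
      omega
  · intro s v a b c' t hi _ _ _ _ h
    simp [check] at h
  · intro s v a b g os _ _ _ _ _ h
    simp [check] at h

/-- the value of the four-point sum -/
lemma Q_of_sm {n A T fa fb fc : ℕ} {v : ℕ → J} (H : Ok F ⟨n, A, T, fa, fb, fc⟩ v)
    {a b c d : ℕ} (ha : a < n) (hb : b < n) (hc : c < n) (hd : d < n) {l : List ℕ} {lo p V : ℕ}
    (h : sm n A T a c b d l lo = some (p, V)) (hp : p = dgr A a * dgr A c) :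
    F.Q (v a) (v b) (v c) (v d) = V := by
  obtain ⟨_, i2, i3, i4⟩ := sm_sound H ha hc hb hd _ _ _ _ h
  rw [F.Q_swap, F.Q_eq _ _ _ _ _ i2 (by rw [i3, hp, H.deg a ha, H.deg c hc]), i4]

lemma snd_lc (a b c d S L : ℕ) : Snd F (.lc a b c d S L) := by
  refine ⟨?_, ?_, ?_⟩
  · intro s v H h
    obtain ⟨n, A, T, fa, fb, fc⟩ := s
    rw [check] at h
    simp only [Bool.and_eq_true, Nat.blt_eq] at h
    obtain ⟨⟨⟨⟨ha, hb⟩, hc⟩, hd⟩, h⟩ := h
    cases h1 : sm n A T a b c d (dl 20 S) 0 with
    | none => rw [h1] at h; simp at h
    | some pK =>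
      obtain ⟨pS, K⟩ := pK
      rw [h1] at h
      simp only at h
      cases h2 : sm n A T a c b d (dl 20 L) 0 with
      | none => rw [h2] at h; simp at h
      | some pV =>
        obtain ⟨p, V⟩ := pV
        rw [h2] at h
        simp only [Bool.and_eq_true, Nat.blt_eq, Nat.beq_eq] at h
        have h3 := Q_of_sm F H ha hb hc hd h2 h.1
        obtain ⟨_, i2, _, i4⟩ := sm_sound H ha hb hc hd _ _ _ _ h1
        have h4 := F.Q_list_le (v a) (v b) (v c) (v d) _ i2
        rw [i4, h3] at h4
        omega
  · intro s v a b c' t hi _ _ _ _ h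
    simp [check] at h
  · intro s v a b g os _ _ _ _ _ h
    simp [check] at h

lemma snd_lq (a b c d S L : ℕ) : Snd F (.lq a b c d S L) := by
  refine ⟨?_, ?_, ?_⟩
  · intro s v H h
    obtain ⟨n, A, T, fa, fb, fc⟩ := s
    rw [check] at h
    simp only [Bool.and_eq_true, Nat.blt_eq] at h
    obtain ⟨⟨⟨⟨ha, hb⟩, hc⟩, hd⟩, h⟩ := h
    cases h1 : sm n A T a b c d (dl 20 S) 0 with
    | none => rw [h1] at h; simp at h
    | some pK =>
      obtain ⟨pS, K⟩ := pK
      rw [h1] at h
      simp only at h
      cases h2 : sm n A T a c b d (dl 20 L) 0 with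
      | none => rw [h2] at h; simp at h
      | some pV =>
        obtain ⟨p, V⟩ := pV
        rw [h2] at h
        simp only [Bool.and_eq_true, Nat.beq_eq, Bool.not_eq_true'] at h
        have h3 := Q_of_sm F H ha hb hc hd h2 h.1.1
        obtain ⟨_, i2, i3, i4⟩ := sm_sound H ha hb hc hd _ _ _ _ h1
        have h4 := F.Q_eq (v a) (v b) (v c) (v d) _ i2
          (by rw [i3, h.1.2, H.deg a ha, H.deg b hb])
        rw [i4, h3] at h4
        rw [h4] at h
        simp at h
  · intro s v a b c' t hi _ _ _ _ h
    simp [check] at h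
  · intro s v a b g os _ _ _ _ _ h
    simp [check] at h

lemma snd_up (a b c d x S L : ℕ) {k : Cert} (hk : Snd F k) : Snd F (.up a b c d x S L k) := by
  refine ⟨?_, ?_, ?_⟩
  · intro s v H h
    obtain ⟨n, A, T, fa, fb, fc⟩ := s
    rw [check] at h
    simp only [Bool.and_eq_true, Nat.blt_eq] at h
    obtain ⟨⟨⟨⟨⟨⟨ha, hb⟩, hc⟩, hd⟩, hx⟩, hn⟩, h⟩ := h
    cases h1 : sm n A T a b c d (dl 20 S) 0 with
    | none => rw [h1] at h; simp at h
    | some pK =>
      obtain ⟨pS, K⟩ := pK
      rw [h1] at h
      simp only at h
      cases h2 : sm n A T a c b d (dl 20 L) 0 with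
      | none => rw [h2] at h; simp at h
      | some pV =>
        obtain ⟨p, V⟩ := pV
        rw [h2] at h
        simp only at h
        cases h5 : look T a b (dus A x) with
        | zero => rw [h5] at h; simp at h
        | succ co =>
          rw [h5] at h
          simp only [Bool.and_eq_true, Nat.blt_eq, Nat.beq_eq] at h
          have h3 := Q_of_sm F H ha hb hc hd h2 h.1.1
          obtain ⟨i1, i2, _, i4⟩ := sm_sound H ha hb hc hd _ _ _ _ h1
          simp only at i1
          have hdx := H.du x hx
          simp only at hdx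
          have hco := H.look ha hb hdx.1 h5
          rw [hdx.2] at hco
          have hnd : (v x :: (dl 20 S).map v).Nodup := by
            rw [List.nodup_cons]
            refine ⟨?_, i2⟩
            intro hm
            obtain ⟨y, hy, hyx⟩ := List.mem_map.1 hm
            have := H.inj y (i1 y hy).2 x hx hyx
            rw [this] at hy
            exact nin_sound _ _ hn hy
          have h4 := F.Q_list_le (v a) (v b) (v c) (v d) _ hnd
          rw [List.map_cons, List.sum_cons, i4, h3, hco] at h4
          refine withT_sound H hx hc hd ?_ h.2 (fun s' hs' hO _ => hk.plain s' v hO hs')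
          by_contra h6
          have h7 : co ≤ co * F.T (v x) (v c) (v d) :=
            Nat.le_mul_of_pos_right _ (Nat.pos_of_ne_zero h6)
          omega
  · intro s v a b c' t hi _ _ _ _ h
    simp [check] at h
  · intro s v a b g os _ _ _ _ _ h
    simp [check] at h

lemma snd_eq (a b c d x S L : ℕ) {k : Cert} (hk : Snd F k) : Snd F (.eq a b c d x S L k) := by
  refine ⟨?_, ?_, ?_⟩
  · intro s v H h
    obtain ⟨n, A, T, fa, fb, fc⟩ := s
    rw [check] at h
    simp only [Bool.and_eq_true, Nat.blt_eq] at h
    obtain ⟨⟨⟨⟨⟨⟨ha, hb⟩, hc⟩, hd⟩, hx⟩, hn⟩, h⟩ := h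
    cases h1 : sm n A T a b c d (dl 20 S) 0 with
    | none => rw [h1] at h; simp at h
    | some pK =>
      obtain ⟨pS, K⟩ := pK
      rw [h1] at h
      simp only at h
      cases h2 : sm n A T a c b d (dl 20 L) 0 with
      | none => rw [h2] at h; simp at h
      | some pV =>
        obtain ⟨p, V⟩ := pV
        rw [h2] at h
        simp only at h
        cases h5 : look T a b (dus A x) with
        | zero => rw [h5] at h; simp at h
        | succ co =>
          rw [h5] at h
          simp only [Bool.and_eq_true, Nat.beq_eq] at h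
          have h3 := Q_of_sm F H ha hb hc hd h2 h.1.1
          obtain ⟨i1, i2, i3, i4⟩ := sm_sound H ha hb hc hd _ _ _ _ h1
          simp only at i1
          have hdx := H.du x hx
          simp only at hdx
          have hco := H.look ha hb hdx.1 h5
          rw [hdx.2] at hco
          have hnd : (v x :: (dl 20 S).map v).Nodup := by
            rw [List.nodup_cons]
            refine ⟨?_, i2⟩
            intro hm
            obtain ⟨y, hy, hyx⟩ := List.mem_map.1 hm
            have := H.inj y (i1 y hy).2 x hx hyx
            rw [this] at hy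
            exact nin_sound _ _ hn hy
          have h4 := F.Q_eq (v a) (v b) (v c) (v d) _ hnd (by
            rw [List.map_cons, List.sum_cons, i3, hco, H.deg a ha, H.deg b hb, H.deg x hx]
            simp only
            omega)
          rw [List.map_cons, List.sum_cons, i4, h3, hco] at h4
          have h6 := h.2
          cases h7 : Nat.blt V K
          · rw [h7] at h6
            simp only [cond_false] at h6
            rw [force_eq] at h6
            have h7' : ¬ V < K := by
              intro h8
              rw [← Nat.blt_eq, h7] at h8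
              exact Bool.noConfusion h8
            cases h8 : Nat.beq (co * ((V - K) / co)) (V - K)
            · have h9 : co * F.T (v x) (v c) (v d) = V - K := by omega
              have h10 : co * ((V - K) / co) = V - K :=
                Nat.mul_div_cancel' ⟨_, h9.symm⟩
              rw [h10] at h8
              simp at h8
            · rw [h8] at h6
              rw [Nat.beq_eq] at h8
              simp only [cond_true, Bool.and_eq_true, Nat.blt_eq] at h6
              refine withT_sound H hx hc hd ?_ h6.2
                (fun s' hs' hO _ => hk.plain s' v hO hs')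
              have h9 : co * F.T (v x) (v c) (v d) = co * ((V - K) / co) := by omega
              exact Nat.eq_of_mul_eq_mul_left h6.1 h9
          · rw [Nat.blt_eq] at h7
            omega
  · intro s v a b c' t hi _ _ _ _ h
    simp [check] at h
  · intro s v a b g os _ _ _ _ _ h
    simp [check] at h

lemma snd_nw (a b typ L : ℕ) {k : Cert} (hk : Snd F k) : Snd F (.nw a b typ L k) := by
  refine ⟨?_, ?_, ?_⟩
  · intro s v H h
    obtain ⟨n, A, T, fa, fb, fc⟩ := s
    rw [check] at h
    simp only [Bool.and_eq_true, Nat.blt_eq, Nat.ble_eq] at h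
    obtain ⟨⟨⟨⟨ha, hb⟩, h16⟩, h48⟩, h⟩ := h
    rw [force_eq] at h
    cases h1 : opts n A T fa fb fc a b typ L (grd A a + grd A b - 16) with
    | none => rw [h1] at h; simp at h
    | some os =>
      rw [h1] at h
      simp only at h
      obtain ⟨o, ho, x, hx⟩ := opts_sound H ha hb (by simp only; omega) h1
      exact hk.nch _ v a b _ os H ha hb (by simp only; omega) (by omega) h o ho x hx
  · intro s v a b c' t hi _ _ _ _ h
    simp [check] at h
  · intro s v a b g os _ _ _ _ _ h
    simp [check] at h

theorem check_sound (c : Cert) : Snd F c := by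
  induction c with
  | done => exact snd_done F
  | br c k hc hk => exact snd_br F hc hk
  | un a b k hk => exact snd_un F a b hk
  | dz a b c S k hk => exact snd_dz F a b c S hk
  | up a b c d x S L k hk => exact snd_up F a b c d x S L hk
  | eq a b c d x S L k hk => exact snd_eq F a b c d x S L hk
  | ld a b S => exact snd_ld F a b S
  | lc a b c d S L => exact snd_lc F a b c d S L
  | lq a b c d S L => exact snd_lq F a b c d S L
  | bn a b c S k hk => exact snd_bn F a b c S hk
  | nw a b typ L k hk => exact snd_nw F a b typ L hk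

end Pool.Agent.Helper77.Fusion
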